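import Pool.Agent.NH44.LT.Cnt
import Pool.Agent.Y291.DB.Count

/-!
# Discs on a torus with a twist
-/

set_option autoImplicit false

open MeasureTheory Real Filter Topology Set Function
open Pool.Agent.Y291.DB

namespace Pool.Agent.NH44.TT

section geo

variable {ρ : ℝ × ℝ → ℝ} {L α ρm ρM : ℝ} (hL : 0 < L) (hρc : Continuous ρ)
  (hρx : ∀ p : ℝ × ℝ, ρ (p.1 + L, p.2 + α) = ρ p) (hρy : ∀ p : ℝ × ℝ, ρ (p.1, p.2 + 2 * π) = ρ p)
  (hρ0 : 0 < ρm) (hρm : ∀ p, ρm ≤ ρ p) (hρM : ∀ p, ρ p ≤ ρM) {C : ℝ} (hC : 0 < C)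
  {β A : ℝ} (hβ : 0 < β) (hβ1 : β ≤ 1) (hβC : 8 * β * Real.sqrt ρM ≤ C)
  (hA : 6 * C / Real.sqrt ρm + 3 * L + 6 * π ≤ A)

include hρx hρy in
theorem disc_shift (p : ℝ × ℝ) (m n : ℤ) (r : ℝ) :
    disc ρ L α (p.1 + m * L, p.2 + m * α + n * (2 * π)) r = disc ρ L α p r := by
  unfold disc
  simp only [gdist_shift_left (fun m n p => per_all hρx hρy m n p)]

include hρx hρy in
theorem doubling_shift (φ : ℝ × ℝ → ℝ) (p : ℝ × ℝ) (m n : ℤ) (r : ℝ) :
    doubling ρ L α φ (p.1 + m * L, p.2 + m * α + n * (2 * π)) r = doubling ρ L α φ p r := by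
  unfold doubling
  simp only [disc_shift hρx hρy]

include hL hρc hρx hρy hρ0 hρm hρM hC hβ hβ1 hβC hA

open Classical in
/-- The number of the centers close to a point. -/
theorem mult_count {lam C₁ : ℝ} (hlam : 0 < lam) {ι : Type} [Fintype ι]
    {c : ι → ℝ × ℝ}
    (hmult : ∀ q : ℝ × ℝ, ({i | q ∈ disc ρ L α (c i) (C / Real.sqrt lam)}.ncard : ℝ) ≤ C₁)
    (D : ℕ) (a b : ℝ) :
    ((Finset.univ.filter fun i => |a - (c i).1| ≤ D * (β * dl lam) ∧
      |b - (c i).2| ≤ D * (β * dl lam)).card : ℝ) ≤ (2 * D + 1) ^ 2 * C₁ := by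
  set δ := β * dl lam with hδ
  have hδ0 : 0 < δ := mul_pos hβ (dl_pos hlam)
  set K : Finset (ℤ × ℤ) := Finset.Icc (-(D : ℤ)) D ×ˢ Finset.Icc (-(D : ℤ)) D with hK
  set T : ℤ × ℤ → Finset ι := fun k => Finset.univ.filter fun i =>
    (a + k.1 * δ, b + k.2 * δ) ∈ disc ρ L α (c i) (C / Real.sqrt lam) with hT
  have hKc : (K.card : ℝ) = (2 * D + 1) ^ 2 := by
    rw [hK, Finset.card_product, Int.card_Icc]
    have : ((D : ℤ) + 1 - -(D : ℤ)).toNat = 2 * D + 1 := by omega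
    rw [this]
    push_cast
    ring
  have hsub : (Finset.univ.filter fun i => |a - (c i).1| ≤ D * δ ∧ |b - (c i).2| ≤ D * δ) ⊆
      K.biUnion T := by
    intro i hi
    obtain ⟨h1, h2⟩ := (Finset.mem_filter.1 hi).2
    have key : ∀ x y : ℝ, |x - y| ≤ D * δ → ∃ k ∈ Finset.Icc (-(D : ℤ)) D,
        |x + (k : ℝ) * δ - y| ≤ δ := by
      intro x y hxy
      rw [abs_le] at hxy
      set s := (y - x) / δ with hs
      have hs1 : s ≤ D := by
        rw [hs, div_le_iff₀ hδ0]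
        linarith [hxy.1]
      have hs2 : -(D : ℝ) ≤ s := by
        rw [hs, le_div_iff₀ hδ0]
        linarith [hxy.2]
      refine ⟨⌊s⌋, Finset.mem_Icc.2 ⟨?_, ?_⟩, ?_⟩
      · rw [Int.le_floor]
        push_cast
        exact hs2
      · have h3 := Int.floor_le s
        have h4 : (⌊s⌋ : ℝ) ≤ (D : ℤ) := by
          push_cast
          linarith
        exact_mod_cast h4
      · have h3 := Int.floor_le s
        have h4 := Int.lt_floor_add_one s
        have h5 : x + (⌊s⌋ : ℝ) * δ - y = ((⌊s⌋ : ℝ) - s) * δ := by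
          rw [hs]
          field_simp
          ring
        rw [h5, abs_mul, abs_of_pos hδ0]
        have h6 : |(⌊s⌋ : ℝ) - s| ≤ 1 := by
          rw [abs_le]
          constructor <;> linarith
        nlinarith
    obtain ⟨k1, hk1, e1⟩ := key _ _ h1
    obtain ⟨k2, hk2, e2⟩ := key _ _ h2
    refine Finset.mem_biUnion.2 ⟨(k1, k2), Finset.mem_product.2 ⟨hk1, hk2⟩,
      Finset.mem_filter.2 ⟨Finset.mem_univ _, ?_⟩⟩
    exact box_sub hL hρc hρx hρy hρ0 hρm hρM hC hβ hβ1 hβC hA hlam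
      (p0 := c i) (x := a + k1 * δ) (y := b + k2 * δ) (by
        show |a + k1 * δ - (c i).1| + |b + k2 * δ - (c i).2| ≤ 8 * β * dl lam
        rw [mul_assoc, ← hδ]
        linarith)
  have hTc : ∀ k ∈ K, ((T k).card : ℝ) ≤ C₁ := by
    intro k _
    have h1 := hmult (a + k.1 * δ, b + k.2 * δ)
    have h2 : {i | (a + k.1 * δ, b + k.2 * δ) ∈ disc ρ L α (c i) (C / Real.sqrt lam)} =
        (T k : Set ι) := by
      ext i
      simp [hT]
    rw [h2, Set.ncard_coe_finset] at h1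
    exact h1
  calc ((Finset.univ.filter fun i => |a - (c i).1| ≤ D * δ ∧ |b - (c i).2| ≤ D * δ).card : ℝ)
      ≤ ((K.biUnion T).card : ℝ) := by exact_mod_cast Finset.card_le_card hsub
    _ ≤ ∑ k ∈ K, ((T k).card : ℝ) := by exact_mod_cast Finset.card_biUnion_le
    _ ≤ ∑ k ∈ K, C₁ := Finset.sum_le_sum hTc
    _ = (2 * D + 1) ^ 2 * C₁ := by rw [Finset.sum_const, nsmul_eq_mul, hKc]

/-- The doubling index from an estimate on squares. -/
theorem dbl2 {lam : ℝ} (hlam : 0 < lam) {φ : ℝ × ℝ → ℝ} (hφc : Continuous φ)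
    (hpx : ∀ p : ℝ × ℝ, φ (p.1 + L, p.2 + α) = φ p) (hpy : ∀ p : ℝ × ℝ, φ (p.1, p.2 + 2 * π) = φ p)
    (p : ℝ × ℝ) {Λ : ℝ} (hΛ : 1 ≤ Λ)
    (h : ∀ m, 0 < m → (∀ q : ℝ × ℝ, |q.1 - p.1| ≤ β * dl lam → |q.2 - p.2| ≤ β * dl lam →
      |φ q| ≤ m) → ∀ q : ℝ × ℝ, |q.1 - p.1| ≤ A * dl lam → |q.2 - p.2| ≤ A * dl lam →
      |φ q| ≤ Λ * m) : doubling ρ L α φ p (C / Real.sqrt lam) ≤ Real.logb 2 Λ := by
  obtain ⟨B, hB0, hB⟩ := bounded_of_per hL hφc hpx hpy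
  have hbdd : BddAbove ((fun q => |φ q|) '' disc ρ L α p (C / Real.sqrt lam)) :=
    ⟨B, by rintro _ ⟨q, _, rfl⟩; exact hB q⟩
  set ε := sSup ((fun q => |φ q|) '' disc ρ L α p (C / Real.sqrt lam)) with hε
  have hin : ∀ q : ℝ × ℝ, |q.1 - p.1| ≤ β * dl lam → |q.2 - p.2| ≤ β * dl lam →
      q ∈ disc ρ L α p (C / Real.sqrt lam) := by
    intro q h1 h2
    refine box_sub hL hρc hρx hρy hρ0 hρm hρM hC hβ hβ1 hβC hA hlam ?_
    have : 0 < β * dl lam := mul_pos hβ (dl_pos hlam)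
    linarith
  have hsm : ∀ q : ℝ × ℝ, |q.1 - p.1| ≤ β * dl lam → |q.2 - p.2| ≤ β * dl lam → |φ q| ≤ ε :=
    fun q h1 h2 => le_csSup hbdd ⟨q, hin q h1 h2, rfl⟩
  have hδ0 : 0 < β * dl lam := mul_pos hβ (dl_pos hlam)
  have hε0 : 0 ≤ ε := (abs_nonneg (φ p)).trans (hsm p (by simpa using hδ0.le) (by simpa using hδ0.le))
  have hbig : ∀ q : ℝ × ℝ, |q.1 - p.1| ≤ A * dl lam → |q.2 - p.2| ≤ A * dl lam →
      |φ q| ≤ Λ * ε := by
    intro q h1 h2
    refine le_of_forall_pos_le_add fun η hη => ?_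
    have h3 := h (ε + η / Λ) (by positivity) (fun q h1 h2 => (hsm q h1 h2).trans (by
      have : 0 < η / Λ := by positivity
      linarith)) q h1 h2
    have h4 : Λ * (ε + η / Λ) = Λ * ε + η := by field_simp
    rwa [h4] at h3
  have hsup : sSup ((fun q => |φ q|) '' disc ρ L α p (2 * (C / Real.sqrt lam))) ≤ Λ * ε := by
    refine Real.sSup_le ?_ (by positivity)
    rintro _ ⟨q, hq, rfl⟩
    obtain ⟨m, n, h1, h2⟩ := double_sub hL hρc hρx hρy hρ0 hρm hρM hC hβ hβ1 hβC hA hlam hq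
    show |φ q| ≤ Λ * ε
    rw [← per_all hpx hpy m n q]
    exact hbig _ h1 h2
  have hlogΛ : 0 ≤ Real.logb 2 Λ := Real.logb_nonneg one_lt_two hΛ
  unfold doubling
  rw [← hε]
  have hS2 : 0 ≤ sSup ((fun q => |φ q|) '' disc ρ L α p (2 * (C / Real.sqrt lam))) :=
    Real.sSup_nonneg (by rintro _ ⟨q, _, rfl⟩; exact abs_nonneg _)
  have hrat : sSup ((fun q => |φ q|) '' disc ρ L α p (2 * (C / Real.sqrt lam))) / ε ≤ Λ := by
    rcases hε0.eq_or_lt with h0 | h0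
    · rw [← h0, div_zero]
      linarith
    · rw [div_le_iff₀ h0]
      exact hsup
  rcases (div_nonneg hS2 hε0).eq_or_lt with h0 | h0
  · rw [← h0, Real.logb_zero]
    exact hlogΛ
  · exact Real.logb_le_logb_of_le one_lt_two h0 hrat

end geo

/-- the zeros on the lines are close to few centers -/
theorem dbl_count {ι κ : Type} [Fintype ι] {K : Finset κ} {V : κ → Finset ℝ}
    {R : κ → ℝ → ι → Prop} [∀ k z i, Decidable (R k z i)] {M0 : ℝ}
    (h : ∀ k ∈ K, ∀ z ∈ V k, ((Finset.univ.filter (R k z)).card : ℝ) ≤ M0) :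
    ∑ i, ((∑ k ∈ K, ((V k).filter fun z => R k z i).card : ℕ) : ℝ) ≤
      (∑ k ∈ K, ((V k).card : ℝ)) * M0 := by
  have h1 : ∀ i, ((∑ k ∈ K, ((V k).filter fun z => R k z i).card : ℕ) : ℝ) =
      ∑ k ∈ K, ∑ z ∈ V k, if R k z i then (1 : ℝ) else 0 := by
    intro i
    push_cast
    refine Finset.sum_congr rfl fun k _ => ?_
    rw [Finset.sum_boole]
  simp only [h1]
  rw [Finset.sum_comm, Finset.sum_mul]
  refine Finset.sum_le_sum fun k hk => ?_
  rw [Finset.sum_comm]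
  have h2 : ∀ z ∈ V k, ∑ i, (if R k z i then (1 : ℝ) else 0) ≤ M0 := by
    intro z hz
    rw [Finset.sum_boole]
    exact h k hk z hz
  refine (Finset.sum_le_sum h2).trans ?_
  rw [Finset.sum_const, nsmul_eq_mul]

end Pool.Agent.NH44.TT
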