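import Pool.Agent.NH44.LT.Scale
import Pool.Agent.NH44.LS.Main
import Pool.Agent.NH44.TT.Geo

/-!
# The choice of the lines on a torus with a twist
-/

set_option autoImplicit false

open Real Set
open Pool.Agent.Y291.DB

namespace Pool.Agent.NH44.TT

/-- a bound of the number of the zeros on all segments -/
def SegB (u : ℝ → ℝ) (s : ℝ) (k0 : ℕ) : Prop := ∀ a b : ℝ, a ≤ b → ∀ Z : Finset ℝ,
  (∀ z ∈ Z, u z = 0 ∧ z ∈ Icc a b) → (Z.card : ℝ) ≤ k0 + (b - a) * s

theorem SegB.finite {u : ℝ → ℝ} {s : ℝ} {k0 : ℕ} (h : SegB u s k0) {a b : ℝ} (hab : a ≤ b) :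
    {z | u z = 0 ∧ z ∈ Icc a b}.Finite :=
  LT.finite_of_bound (B := k0 + (b - a) * s) fun Z hZ => h a b hab Z hZ

theorem SegB.countable {u : ℝ → ℝ} {s : ℝ} {k0 : ℕ} (h : SegB u s k0) :
    {z | u z = 0}.Countable := by
  have h1 : {z | u z = 0} ⊆ ⋃ n : ℕ, {z | u z = 0 ∧ z ∈ Icc (-(n : ℝ)) n} := by
    intro z hz
    obtain ⟨n, hn⟩ := exists_nat_ge |z|
    exact mem_iUnion.2 ⟨n, hz, abs_le.1 hn⟩
  refine (countable_iUnion fun n => Finite.countable ?_).mono h1
  exact h.finite (by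
    have : (0 : ℝ) ≤ n := Nat.cast_nonneg n
    linarith)

theorem offset {E : Set ℝ} (hE : E.Countable) (δ : ℝ) : ∃ ξ : ℝ, ∀ k : ℤ, ξ + k * δ ∉ E := by
  have h1 : (⋃ k : ℤ, (fun x => x - k * δ) '' E).Countable :=
    countable_iUnion fun k => hE.image _
  obtain ⟨ξ, hξ⟩ := (h1.dense_compl ℝ).nonempty
  refine ⟨ξ, fun k hk => hξ (mem_iUnion.2 ⟨k, ξ + k * δ, hk, ?_⟩)⟩
  simp

/-- the horizontal lines with few zeros -/
theorem pick_rows {φ : ℝ × ℝ → ℝ} {L α : ℝ} (hL : 0 < L)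
    (perx : ∀ p : ℝ × ℝ, φ (p.1 + L, p.2 + α) = φ p)
    (pery : ∀ p : ℝ × ℝ, φ (p.1, p.2 + 2 * π) = φ p) {s : ℝ} (hs0 : 0 ≤ s)
    (hz : ∀ y0, (∃ x, φ (x, y0) ≠ 0) → ∃ k0 : ℕ, SegB (fun x => φ (x, y0)) s k0)
    (η0 : ℝ) (N2 : ℕ) (hgood : ∀ k : ℕ, ∃ x, φ (x, η0 + k * (2 * π / N2)) ≠ 0) {X : ℝ}
    (hX : 0 ≤ X) (P : ℕ) (hP : 2 * X < P * L) :
    ∃ (η : ℝ) (H : ℕ → Finset ℝ), η ∈ Ico 0 (2 * π) ∧
      (∀ (i : ℕ) (z : ℝ), |z| ≤ X → φ (z, η + i * (2 * π / N2)) = 0 → z ∈ H i) ∧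
      (∑ i ∈ Finset.range N2, ((H i).card : ℝ)) ≤ N2 * (1 + (2 * X + P * L) * s) := by
  classical
  choose k hk using fun i : ℕ => hz _ (hgood i)
  have hF : ∀ (i : ℕ) (a b : ℝ), ∃ F : Finset ℝ, a ≤ b → ∀ z,
      z ∈ F ↔ (φ (z, η0 + i * (2 * π / N2)) = 0 ∧ z ∈ Icc a b) := by
    intro i a b
    by_cases hab : a ≤ b
    · refine ⟨((hk i).finite hab).toFinset, fun _ z => ?_⟩
      rw [Set.Finite.mem_toFinset]
      exact Iff.rfl
    · exact ⟨∅, fun h => absurd h hab⟩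
  choose F hF using hF
  set n : ℕ := (Finset.range N2).sup k + 1 with hn
  have hkn : ∀ i ∈ Finset.range N2, (k i : ℝ) ≤ n := by
    intro i hi
    have h1 : k i ≤ (Finset.range N2).sup k := Finset.le_sup (f := k) hi
    exact_mod_cast h1.trans (Nat.le_succ _)
  have hn1 : (1 : ℝ) ≤ n := by
    rw [hn]
    push_cast
    have : (0 : ℝ) ≤ ((Finset.range N2).sup k : ℕ) := Nat.cast_nonneg _
    linarith
  have hPL : 0 ≤ (P : ℝ) * L := by positivity
  set A : ℕ → ℕ → Finset ℝ := fun i j => F i (-X + j * (P * L)) (X + j * (P * L)) with hA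
  have hAm : ∀ i j z, z ∈ A i j ↔ (φ (z, η0 + i * (2 * π / N2)) = 0 ∧
      z ∈ Icc (-X + j * (P * L)) (X + j * (P * L))) := fun i j z =>
    hF i _ _ (by linarith) z
  have hrow : ∀ i ∈ Finset.range N2, ∑ j ∈ Finset.range n, ((A i j).card : ℝ) ≤
      n * (1 + (2 * X + P * L) * s) := by
    intro i hi
    have hdis : ∀ j ∈ Finset.range n, ∀ j' ∈ Finset.range n, j ≠ j' →
        Disjoint (A i j) (A i j') := by
      have key : ∀ j j' : ℕ, j < j' → Disjoint (A i j) (A i j') := by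
        intro j j' hjj
        rw [Finset.disjoint_left]
        intro z hz1 hz2
        have h1 := ((hAm i j z).1 hz1).2.2
        have h2 := ((hAm i j' z).1 hz2).2.1
        have h3 : (j : ℝ) + 1 ≤ j' := by exact_mod_cast hjj
        have h4 := mul_le_mul_of_nonneg_right h3 hPL
        linarith
      intro j _ j' _ hne
      rcases lt_or_gt_of_ne hne with h | h
      · exact key j j' h
      · exact (key j' j h).symm
    have h1 : ∑ j ∈ Finset.range n, ((A i j).card : ℝ) =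
        (((Finset.range n).biUnion (A i)).card : ℝ) := by
      rw [Finset.card_biUnion hdis]
      push_cast
      rfl
    rw [h1]
    have h2 := hk i (-X) (X + n * (P * L)) (by nlinarith) ((Finset.range n).biUnion (A i))
      (fun z hz => by
        obtain ⟨j, hj, hzj⟩ := Finset.mem_biUnion.1 hz
        obtain ⟨h3, h4⟩ := (hAm i j z).1 hzj
        have h5 : (j : ℝ) ≤ n := by exact_mod_cast (Finset.mem_range.1 hj).le
        have h6 := mul_le_mul_of_nonneg_right h5 hPL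
        have h7 : 0 ≤ (j : ℝ) * (P * L) := by positivity
        exact ⟨h3, by linarith [h4.1], by linarith [h4.2]⟩)
    refine h2.trans ?_
    have h3 := hkn i hi
    have h4 : (X + n * (P * L) - -X) * s ≤ n * ((2 * X + P * L) * s) := by
      have h5 : X + n * (P * L) - -X ≤ n * (2 * X + P * L) := by nlinarith
      have := mul_le_mul_of_nonneg_right h5 hs0
      linarith
    linarith
  obtain ⟨j, -, hj⟩ : ∃ j ∈ Finset.range n, ∑ i ∈ Finset.range N2, ((A i j).card : ℝ) ≤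
      N2 * (1 + (2 * X + P * L) * s) := by
    refine Finset.exists_le_of_sum_le (Finset.nonempty_range_iff.2 (by omega)) ?_
    rw [Finset.sum_comm]
    refine (Finset.sum_le_sum hrow).trans (le_of_eq ?_)
    rw [Finset.sum_const, Finset.sum_const, Finset.card_range, Finset.card_range, nsmul_eq_mul,
      nsmul_eq_mul]
    ring
  set J : ℕ := j * P with hJ
  obtain ⟨l, hl⟩ := LS.reduce0 Real.two_pi_pos (η0 - J * α)
  refine ⟨η0 - J * α + l * (2 * π), fun i => (A i j).image fun z => z - J * L, hl, ?_, ?_⟩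
  · intro i z hzX hz0
    refine Finset.mem_image.2 ⟨z + J * L, ?_, by ring⟩
    rw [hAm]
    have h1 := per_all perx pery (J : ℤ) (-l)
      (z, η0 - J * α + l * (2 * π) + i * (2 * π / N2))
    have h2 : ((z, η0 - J * α + l * (2 * π) + i * (2 * π / N2)).1 + ((J : ℤ) : ℝ) * L,
        (z, η0 - J * α + l * (2 * π) + i * (2 * π / N2)).2 + ((J : ℤ) : ℝ) * α +
          ((-l : ℤ) : ℝ) * (2 * π)) = (z + J * L, η0 + i * (2 * π / N2)) := by
      refine Prod.ext ?_ ?_
      · simp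
      · push_cast
        ring
    rw [h2, hz0] at h1
    have h3 : (J : ℝ) * L = j * (P * L) := by
      rw [hJ]
      push_cast
      ring
    rw [abs_le] at hzX
    refine ⟨h1, ?_, ?_⟩
    · rw [h3]
      linarith
    · rw [h3]
      linarith
  · refine le_trans (Finset.sum_le_sum fun i _ => ?_) hj
    exact_mod_cast Finset.card_image_le

end Pool.Agent.NH44.TT
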