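import Pool.Agent.NH44.LT.Sturm2

/-!
# A quasi-periodic solution and its derivative are not simultaneously small
-/

set_option autoImplicit false

open Filter Topology Metric Set

namespace Pool.Agent.NH44.TT

open Pool.Agent.NH44.LT

theorem per_low {E : ℝ → ℝ} {L : ℝ} (hL : 0 < L) (hc : Continuous E) (hp : ∀ x, 0 < E x)
    (per : ∀ x, E (x + L) = E x) : ∃ c : ℝ, 0 < c ∧ ∀ x, c ≤ E x := by
  obtain ⟨p, hp1, hmin⟩ := (isCompact_Icc (a := (0 : ℝ)) (b := L)).exists_isMinOn
    ⟨0, le_rfl, hL.le⟩ hc.continuousOn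
  refine ⟨E p, hp p, fun x => ?_⟩
  have hper : Function.Periodic E L := per
  obtain ⟨y, hy, e⟩ := hper.exists_mem_Ico₀ hL x
  rw [e]
  exact hmin ⟨hy.1, hy.2.le⟩

theorem re_im {f : ℝ → ℂ} {f' : ℂ} {x : ℝ} (hf : HasDerivAt f f' x) :
    HasDerivAt (fun t => (f t).re) f'.re x ∧ HasDerivAt (fun t => (f t).im) f'.im x :=
  ⟨Complex.reCLM.hasFDerivAt.comp_hasDerivAt x hf, Complex.imCLM.hasFDerivAt.comp_hasDerivAt x hf⟩

theorem low {V V' : ℝ → ℂ} {r : ℝ → ℝ} {Λ L : ℝ} (hL : 0 < L)
    (hV : ∀ x, HasDerivAt V (V' x) x) (hV' : ∀ x, HasDerivAt V' ((r x : ℂ) * V x) x)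
    (hr : ∀ x, |r x| ≤ Λ) (per : ∀ x, ‖V (x + L)‖ = ‖V x‖) (per' : ∀ x, ‖V' (x + L)‖ = ‖V' x‖)
    (hne : ∃ x, (V x).re ≠ 0) : ∃ c : ℝ, 0 < c ∧ ∀ x, c ≤ |(V x).re| + |(V' x).re| := by
  have hVc : Continuous V := continuous_iff_continuousAt.2 fun t => (hV t).continuousAt
  have hVc' : Continuous V' := continuous_iff_continuousAt.2 fun t => (hV' t).continuousAt
  obtain ⟨B1, hB10, hB1⟩ := per_bound hVc.norm hL per
  obtain ⟨B2, hB20, hB2⟩ := per_bound hVc'.norm hL per'
  have d1 := fun x => (re_im (hV x)).1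
  have d2 := fun x => (re_im (hV x)).2
  have d3 : ∀ x, HasDerivAt (fun t => (V' t).re) (r x * (V x).re) x := fun x => by
    have := (re_im (hV' x)).1
    rwa [Complex.re_ofReal_mul] at this
  have d4 : ∀ x, HasDerivAt (fun t => (V' t).im) (r x * (V x).im) x := fun x => by
    have := (re_im (hV' x)).2
    rwa [Complex.im_ofReal_mul] at this
  -- the Wronskian
  set W : ℝ → ℝ := fun x => (V x).re * (V' x).im - (V x).im * (V' x).re with hW
  have hWd : ∀ x, HasDerivAt W 0 x := by
    intro x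
    have h1 := ((d1 x).mul (d4 x)).sub ((d2 x).mul (d3 x))
    refine h1.congr_deriv ?_
    ring
  have hWc : ∀ x, W x = W 0 := fun x =>
    is_const_of_deriv_eq_zero (fun t => (hWd t).differentiableAt) (fun t => (hWd t).deriv) x 0
  by_cases h0 : W 0 = 0
  · obtain ⟨x1, hx1⟩ := hne
    set c : ℂ := (starRingEnd ℂ) (V x1) with hc
    have hV1 : V x1 ≠ 0 := by
      intro h
      rw [h] at hx1
      exact hx1 rfl
    have hcn : ‖c‖ ≠ 0 := by
      rw [hc, Complex.norm_conj]
      exact norm_ne_zero_iff.2 hV1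
    have e1 : ∀ x, HasDerivAt (fun t => (c * V t).im) ((c * V' x).im) x := fun x =>
      (re_im ((hV x).const_mul c)).2
    have e2 : ∀ x, HasDerivAt (fun t => (c * V' t).im) (r x * (c * V x).im) x := by
      intro x
      have := (re_im ((hV' x).const_mul c)).2
      refine this.congr_deriv ?_
      rw [← Complex.im_ofReal_mul]
      congr 1
      ring
    have e3 : (c * V x1).im = 0 := by
      rw [hc, mul_comm, Complex.mul_conj]
      exact Complex.ofReal_im _
    have e4 : (c * V' x1).im = 0 := by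
      have := hWc x1
      rw [h0, hW] at this
      simp only at this
      rw [hc, Complex.mul_im, Complex.conj_re, Complex.conj_im]
      linarith
    have e5 : ∀ x, (c * V x).im = 0 := fun x => ode_zero e1 e2 hr e3 e4 x
    have e6 : ∀ x, (c * V' x).im = 0 := by
      intro x
      have h1 : (fun t => (c * V t).im) = fun _ => 0 := funext e5
      have h2 := e1 x
      rw [h1] at h2
      exact h2.unique (hasDerivAt_const _ _)
    -- the absolute values
    have key : ∀ z : ℂ, (c * z).im = 0 → |z.re| * ‖c‖ ^ 2 = |(V x1).re| * (‖c‖ * ‖z‖) := by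
      intro z hz
      have h1 : z * ((‖c‖ ^ 2 : ℝ) : ℂ) = V x1 * (c * z) := by
        have h2 : V x1 * c = ((‖c‖ ^ 2 : ℝ) : ℂ) := by
          rw [hc, Complex.mul_conj, Complex.norm_conj, Complex.normSq_eq_norm_sq]
        rw [← h2]
        ring
      have h3 : c * z = (((c * z).re : ℝ) : ℂ) := Complex.ext (by simp) (by simp [hz])
      have h4 : |(c * z).re| = ‖c‖ * ‖z‖ := by
        rw [← norm_mul, h3, Complex.norm_real, Real.norm_eq_abs]
        simp
      have h5 := congrArg Complex.re h1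
      rw [h3] at h5
      rw [Complex.re_mul_ofReal, Complex.re_mul_ofReal] at h5
      have h6 := congrArg abs h5
      rw [abs_mul, abs_mul, h4, abs_of_nonneg (by positivity : (0 : ℝ) ≤ ‖c‖ ^ 2)] at h6
      exact h6
    have hE : ∀ x, |(V x).re| + |(V' x).re| = |(V x1).re| / ‖c‖ * (‖V x‖ + ‖V' x‖) := by
      intro x
      have k1 := key _ (e5 x)
      have k2 := key _ (e6 x)
      have k3 : (|(V x).re| + |(V' x).re|) * ‖c‖ ^ 2 = |(V x1).re| * ‖c‖ * (‖V x‖ + ‖V' x‖) := by
        rw [add_mul, k1, k2]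
        ring
      field_simp
      have k4 : (|(V x).re| + |(V' x).re|) * ‖c‖ * ‖c‖ =
          |(V x1).re| * (‖V x‖ + ‖V' x‖) * ‖c‖ := by
        linear_combination k3
      exact mul_right_cancel₀ hcn k4
    have hcpos : 0 < |(V x1).re| / ‖c‖ :=
      div_pos (abs_pos.2 hx1) ((norm_nonneg _).lt_of_ne' hcn)
    obtain ⟨m, hm, hlow⟩ := per_low (E := fun x => ‖V x‖ + ‖V' x‖) hL (hVc.norm.add hVc'.norm)
      (fun x => by
        rcases (add_nonneg (norm_nonneg (V x)) (norm_nonneg (V' x))).eq_or_lt with h | h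
        · exfalso
          have h1 := norm_nonneg (V x)
          have h2 := norm_nonneg (V' x)
          have h3 : V x = 0 := norm_eq_zero.1 (by linarith)
          have h4 : V' x = 0 := norm_eq_zero.1 (by linarith)
          refine hx1 (ode_zero d1 d3 hr (s := x) ?_ ?_ x1)
          · show (V x).re = 0
            rw [h3]
            rfl
          · show (V' x).re = 0
            rw [h4]
            rfl
        · exact h)
      (fun x => by simp only [per, per'])
    refine ⟨|(V x1).re| / ‖c‖ * m, mul_pos hcpos hm, fun x => ?_⟩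
    rw [hE]
    exact mul_le_mul_of_nonneg_left (hlow x) hcpos.le
  · have hW0 : 0 < |W 0| := abs_pos.2 h0
    refine ⟨|W 0| / (B1 + B2 + 1), by positivity, fun x => ?_⟩
    rw [div_le_iff₀ (by positivity)]
    have h1 : |W 0| ≤ |(V x).re| * B2 + B1 * |(V' x).re| := by
      rw [← hWc x, hW]
      simp only
      have b1 := hB1 x
      have b2 := hB2 x
      rw [abs_of_nonneg (norm_nonneg _)] at b1 b2
      have k1 : |(V' x).im| ≤ B2 := (Complex.abs_im_le_norm _).trans b2
      have k2 : |(V x).im| ≤ B1 := (Complex.abs_im_le_norm _).trans b1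
      calc |(V x).re * (V' x).im - (V x).im * (V' x).re|
          ≤ |(V x).re * (V' x).im| + |(V x).im * (V' x).re| := abs_sub _ _
        _ ≤ _ := by
          rw [abs_mul, abs_mul]
          exact add_le_add (mul_le_mul_of_nonneg_left k1 (abs_nonneg _))
            (mul_le_mul_of_nonneg_right k2 (abs_nonneg _))
    have h2 := abs_nonneg (V x).re
    have h3 := abs_nonneg (V' x).re
    nlinarith

end Pool.Agent.NH44.TT
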