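import Pool.Agent.NH44.TT.Seg
import Pool.Agent.NH44.TT.Low
import Pool.Agent.NH44.SR.Lines
import Pool.Agent.R220.TI.Mult

/-!
# Zeros on the lines of a torus with a twist
-/

set_option autoImplicit false

open Filter Topology Metric Set Real
open Pool.Agent.Y291.DB

namespace Pool.Agent.NH44.TT

open Pool.Agent.NH44.LT Pool.Agent.NH44.SR

theorem ek_neg (k : ℤ) (y : ℝ) : ek (-k) y = (starRingEnd ℂ) (ek k y) := by
  unfold ek
  rw [← Complex.exp_conj]
  congr 1
  simp only [map_neg, map_mul, Complex.conj_I, Complex.conj_ofReal]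
  have : (starRingEnd ℂ) ((k : ℤ) : ℂ) = ((k : ℤ) : ℂ) := map_intCast _ k
  rw [this]
  push_cast
  ring

theorem um_neg (U : ℝ → ℝ → ℝ) (k : ℤ) (x : ℝ) :
    um U (-k) x = (starRingEnd ℂ) (um U k x) := by
  unfold um
  rw [map_mul, Complex.conj_ofReal]
  congr 1
  rw [intervalIntegral.integral_of_le (by positivity), intervalIntegral.integral_of_le
    (by positivity), ← integral_conj]
  refine MeasureTheory.integral_congr_ae (Filter.Eventually.of_forall fun y => ?_)
  simp only [ek_neg, map_mul, Complex.conj_ofReal]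

theorem wk_neg (U : ℝ → ℝ → ℝ) (k : ℤ) (x y : ℝ) : wk U (-k) x y = wk U k x y := by
  unfold wk
  rw [um_neg]
  have h1 : Complex.exp (((-k : ℤ) : ℂ) * y * Complex.I) =
      (starRingEnd ℂ) (Complex.exp ((k : ℂ) * y * Complex.I)) := by
    rw [← Complex.exp_conj]
    congr 1
    simp only [map_mul, Complex.conj_I, Complex.conj_ofReal]
    have : (starRingEnd ℂ) ((k : ℤ) : ℂ) = ((k : ℤ) : ℂ) := map_intCast _ k
    rw [this]
    push_cast
    ring
  rw [h1, ← map_mul, Complex.conj_re]

section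

variable {q : ℝ → ℝ} {U Ux Uxx Uy Uyy : ℝ → ℝ → ℝ} (h : Sol q U Ux Uxx Uy Uyy)
  (hper : ∀ x y, U x (y + 2 * π) = U x y) {L α : ℝ} (hL : 0 < L)
  (htw : ∀ x y, U (x + L) (y + α) = U x y) {Λ B : ℝ} (hB : ∀ x y, |U x y| ≤ B)
  (hBx : ∀ x y, |Ux x y| ≤ B)

include h hper hB in
/-- zeros on the vertical lines -/
theorem zeros_vert (hΛ : 0 < Λ) (hq : ∀ x, q x ≤ Λ) (x0 : ℝ) (hne : ∃ y, U x0 y ≠ 0)
    {Z : Finset ℝ} (hZ : ∀ z ∈ Z, z ∈ Ico 0 (2 * π) ∧ U x0 z = 0) :
    (Z.card : ℝ) ≤ 2 * π * Real.sqrt Λ := by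
  obtain ⟨n, kk, hkk, hU⟩ := modes h hper hB hΛ.le hq
  simp only [hU] at hne hZ
  have h1 := LT.line_zeros (n := n) (h := fun _ => 0) (lam := Λ) (H := 0) (M := 1)
    (P := 2 * π) continuous_const (by positivity) (fun _ => rfl) hΛ (fun _ => by simp)
    (ν := fun i => -(kk i : ℝ) ^ 2) (w := fun i => wk U (kk i) x0)
    (w' := fun i => wky U (kk i) x0) (fun i t => wk_y _ _ _) (fun i t => by
      refine (wk_yy _ _ _).congr_deriv ?_
      ring) (fun i t => wk_per _ _ _) (fun i => by
      rw [abs_neg, abs_of_nonneg (sq_nonneg _), mul_one]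
      exact hkk i) hne hZ
  simpa using h1

include h htw in
theorem htwx : ∀ x y, Ux (x + L) (y + α) = Ux x y := by
  intro x y
  have h1 : HasDerivAt (fun t => U (t + L) (y + α)) (Ux (x + L) (y + α)) x :=
    (h.dx (x + L) (y + α)).comp_add_const x L
  have h2 : (fun t => U (t + L) (y + α)) = fun t => U t y := funext fun t => htw t y
  rw [h2] at h1
  exact h1.unique (h.dx x y)

include h hper in
theorem hperx' : ∀ x y, Ux x (y + 2 * π) = Ux x y := by
  intro x y
  have h1 := h.dx x (y + 2 * π)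
  have h2 : (fun t => U t (y + 2 * π)) = fun t => U t y := funext fun t => hper t y
  rw [h2] at h1
  exact h1.unique (h.dx x y)

include h hper hL htw hB hBx in
/-- zeros on long segments of the horizontal lines -/
theorem zeros_hor (hΛ : 0 < Λ) (hq0 : ∀ x, 0 ≤ q x) (hq : ∀ x, q x ≤ Λ) (y0 : ℝ)
    (hne : ∃ x, U x y0 ≠ 0) : ∃ k0 : ℕ, ∀ a b : ℝ, a ≤ b → ∀ Z : Finset ℝ,
      (∀ z ∈ Z, U z y0 = 0 ∧ z ∈ Icc a b) → (Z.card : ℝ) ≤ k0 + (b - a) * (2 * Real.sqrt Λ) := by
  classical
  obtain ⟨n, kk, hkk, hU⟩ := modes h hper hB hΛ.le hq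
  set κ : Fin n → ℝ := fun i => Λ + 1 - (kk i : ℝ) ^ 2 with hκ
  set v : ℝ → ℝ → ℝ := fun c x => ∑ i, if κ i = c then wk U (kk i) x y0 else 0 with hv
  set v' : ℝ → ℝ → ℝ := fun c x => ∑ i, if κ i = c then wk Ux (kk i) x y0 else 0 with hv'
  set Q : ℝ → ℝ := fun x => Λ + 1 - q x with hQ
  set S : Finset ℝ := (Finset.univ.image κ).filter fun c => ∃ x, v c x ≠ 0 with hS
  have hsum : ∀ x, U x y0 = ∑ c ∈ S, v c x := by
    intro x
    rw [hU, hS]
    have h1 : ∑ c ∈ Finset.univ.image κ, v c x = ∑ i, wk U (kk i) x y0 := by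
      rw [hv]
      simp only
      rw [Finset.sum_comm]
      refine Finset.sum_congr rfl fun i _ => ?_
      rw [Finset.sum_ite_eq, if_pos (Finset.mem_image_of_mem _ (Finset.mem_univ _))]
    rw [← h1, Finset.sum_filter_of_ne]
    intro c _ hc
    exact ⟨x, hc⟩
  have hSne : S.Nonempty := by
    obtain ⟨x, hx⟩ := hne
    rw [hsum] at hx
    obtain ⟨c, hc, -⟩ := Finset.exists_ne_zero_of_sum_ne_zero hx
    exact ⟨c, hc⟩
  -- the members of a group agree
  have hgrp : ∀ j, ∃ N : ℝ, 0 ≤ N ∧ (∀ x, v (κ j) x = N * wk U (kk j) x y0) ∧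
      ∀ x, v' (κ j) x = N * wk Ux (kk j) x y0 := by
    intro j
    refine ⟨((Finset.univ.filter fun i => κ i = κ j).card : ℝ), by positivity, ?_⟩
    have key : ∀ (F : ℝ → ℝ → ℝ) (x : ℝ), (∑ i, if κ i = κ j then wk F (kk i) x y0 else 0) =
        ((Finset.univ.filter fun i => κ i = κ j).card : ℝ) * wk F (kk j) x y0 := by
      intro F x
      rw [← Finset.sum_filter, Finset.sum_congr rfl (g := fun _ => wk F (kk j) x y0),
        Finset.sum_const, nsmul_eq_mul]
      intro i hi
      have h1 : κ i = κ j := (Finset.mem_filter.1 hi).2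
      have h2 : ((kk i : ℤ) : ℝ) ^ 2 = ((kk j : ℤ) : ℝ) ^ 2 := by
        simp only [hκ] at h1
        linarith
      have h3 : (kk i) ^ 2 = (kk j) ^ 2 := by exact_mod_cast h2
      rcases sq_eq_sq_iff_eq_or_eq_neg.1 h3 with h4 | h4
      · rw [h4]
      · rw [h4, wk_neg]
    exact ⟨fun x => key U x, fun x => key Ux x⟩
  have hmemS : ∀ c ∈ S, ∃ j, κ j = c ∧ ∃ x, v c x ≠ 0 := by
    intro c hc
    obtain ⟨h1, h2⟩ := Finset.mem_filter.1 hc
    obtain ⟨j, -, h3⟩ := Finset.mem_image.1 h1
    exact ⟨j, h3, h2⟩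
  have hqc := h.qc
  obtain ⟨k0, hk0⟩ := seg_main (q := Q) (v := v) (v' := v') (by fun_prop)
    (fun c x => by
      rw [hv, hv']
      simp only
      refine HasDerivAt.fun_sum fun i _ => ?_
      split_ifs
      · exact wk_x h hper _ _ _
      · exact hasDerivAt_const _ _)
    (fun c x => by
      rw [hv, hv']
      have h1 : HasDerivAt (fun x => ∑ i, if κ i = c then wk Ux (kk i) x y0 else 0)
          (∑ i, if κ i = c then ((kk i : ℝ) ^ 2 - q x) * wk U (kk i) x y0 else 0) x := by
        refine HasDerivAt.fun_sum fun i _ => ?_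
        split_ifs
        · exact wk_xx h hper _ _ _
        · exact hasDerivAt_const _ _
      refine h1.congr_deriv ?_
      simp only
      rw [Finset.mul_sum]
      refine Finset.sum_congr rfl fun i _ => ?_
      split_ifs with h2
      · rw [← h2, hQ, hκ]
        ring
      · rw [mul_zero])
    (Q := Λ + 1) (fun x => by
      rw [hQ]
      simp only
      have h1 := hq0 x
      have h2 := hq x
      rw [abs_of_nonneg (by linarith)]
      linarith)
    (fun x => by
      rw [hQ]
      simp only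
      have h2 := hq x
      linarith) hSne
    (fun c hc => by
      obtain ⟨j, rfl, -⟩ := hmemS c hc
      have := hkk j
      simp only [hκ]
      linarith)
    (fun c hc => by
      obtain ⟨j, rfl, -⟩ := hmemS c hc
      obtain ⟨N, hN, h1, h2⟩ := hgrp j
      refine ⟨N * B, fun x => ?_⟩
      rw [h1, h2, abs_mul, abs_mul, abs_of_nonneg hN]
      exact ⟨mul_le_mul_of_nonneg_left (wk_b hB _ _ _) hN,
        mul_le_mul_of_nonneg_left (wk_b hBx _ _ _) hN⟩)
    (fun c hc => by
      obtain ⟨j, rfl, x1, hx1⟩ := hmemS c hc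
      obtain ⟨N, hN, h1, h2⟩ := hgrp j
      have hN0 : 0 < N := by
        rcases hN.eq_or_lt with h3 | h3
        · rw [h1, ← h3, zero_mul] at hx1
          exact absurd rfl hx1
        · exact h3
      set ζ : ℂ := Complex.exp ((kk j : ℂ) * y0 * Complex.I) with hζ
      have hζn : ‖ζ‖ = 1 := by
        rw [hζ]
        have h3 : ((kk j : ℂ) * (y0 : ℂ) * Complex.I) = ((kk j * y0 : ℝ) : ℂ) * Complex.I := by
          push_cast
          ring
        rw [h3, Complex.norm_exp_ofReal_mul_I]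
      have huc : Continuous (Function.uncurry U) := h.c
      have hucx : Continuous (Function.uncurry Ux) := h.cx
      obtain ⟨c, hc0, hlow⟩ := low (V := fun x => um U (kk j) x * ζ)
        (V' := fun x => um Ux (kk j) x * ζ) (r := fun x => (kk j : ℝ) ^ 2 - q x) (Λ := Λ) hL
        (fun x => (um_d1 h hper (kk j) x).mul_const ζ)
        (fun x => by
          refine ((um_d2 h hper (kk j) x).mul_const ζ).congr_deriv ?_
          ring)
        (fun x => by
          have h3 := hkk j
          have h4 := hq0 x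
          have h5 := hq x
          have h6 := sq_nonneg ((kk j : ℤ) : ℝ)
          rw [abs_le]
          constructor <;> linarith)
        (fun x => by
          rw [norm_mul, norm_mul, hζn, mul_one, mul_one,
            Pool.Agent.R220.TI.um_shift huc hper htw, norm_mul, Pool.Agent.R220.TI.norm_ek,
            one_mul])
        (fun x => by
          rw [norm_mul, norm_mul, hζn, mul_one, mul_one,
            Pool.Agent.R220.TI.um_shift hucx (hperx' h hper) (htwx h htw), norm_mul,
            Pool.Agent.R220.TI.norm_ek, one_mul])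
        ⟨x1, by
          intro h3
          apply hx1
          rw [h1]
          have h4 : wk U (kk j) x1 y0 = 0 := h3
          rw [h4, mul_zero]⟩
      refine ⟨N * c, mul_pos hN0 hc0, fun x => ?_⟩
      rw [h1, h2, abs_mul, abs_mul, abs_of_nonneg hN, ← mul_add]
      exact mul_le_mul_of_nonneg_left (hlow x) hN)
    (Λ := Λ) hΛ
    (fun c hc x => by
      obtain ⟨j, rfl, -⟩ := hmemS c hc
      have h3 := hkk j
      have h4 := hq0 x
      have h5 := hq x
      have h6 := sq_nonneg ((kk j : ℤ) : ℝ)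
      simp only [hQ, hκ]
      rw [abs_le]
      constructor <;> linarith)
  refine ⟨k0, fun a b hab Z hZ => hk0 a b hab Z fun z hz => ?_⟩
  rw [← hsum]
  exact hZ z hz

end

end Pool.Agent.NH44.TT
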