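import Pool.Agent.NH44.TT.Grid
import Pool.Agent.NH44.TT.Lines
import Pool.Agent.NH44.LT.Asm
import Pool.Agent.NH44.SR.Chain2
import Pool.Agent.NH44.SR.Mult
import Pool.Agent.Y291.PA.Main

/-!
# The average of the doubling indices on a torus of rotation with a twist
-/

set_option autoImplicit false

open Real Set
open Pool.Agent.Y291.DB Pool.Agent.Y291.PA

namespace Pool.Agent.NH44.TT

open Classical in
/-- The doubling index of a disc from the zeros on the lines. -/
theorem disc_bound {r : ℝ → ℝ} {L α ρm ρM : ℝ} (hL : 0 < L) (hr : Continuous r)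
    (hrL : ∀ x, r (x + L) = r x) (hρm0 : 0 < ρm) (hρm : ∀ x, ρm ≤ r x) (hρM : ∀ x, r x ≤ ρM)
    {C β : ℝ} (hC : 0 < C) (hβ : 0 < β) (hβ1 : β ≤ 1) (hβC : 8 * β * Real.sqrt ρM ≤ C) {N : ℕ}
    (hN : 6 * C / Real.sqrt ρm + 3 * L + 6 * π ≤ N * β) {ε : ℝ} (hβε : β * ρM ≤ ε)
    (hgr : ∀ (Q : ℝ → ℝ) (U Ux Uxx Uy Uyy : ℝ → ℝ → ℝ), Continuous Q →
      Sol2 (fun x _ => Q x) U Ux Uxx Uy Uyy → ∀ (p : ℝ × ℝ) (δ : ℝ) (N n1 n2 : ℕ), 0 < δ →
      (∀ x, |x - p.1| ≤ (N + 26) * δ → |δ ^ 2 * Q x| ≤ ε) →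
      (∀ t, |t - p.1| ≤ (N + 4) * δ → |t + δ - p.1| ≤ (N + 4) * δ → ∃ a ∈ Icc t (t + δ),
        ∃ Z : Finset ℝ, Z.card ≤ n1 ∧ ∀ s, |s - p.2| ≤ (N + 4) * δ → U a s = 0 → s ∈ Z) →
      (∀ t, |t - p.2| ≤ (N + 4) * δ → |t + δ - p.2| ≤ (N + 4) * δ → ∃ a ∈ Icc t (t + δ),
        ∃ Z : Finset ℝ, Z.card ≤ n2 ∧ ∀ s, |s - p.1| ≤ (N + 4) * δ → U s a = 0 → s ∈ Z) →
      ∀ m : ℝ, 0 < m → (∀ x y : ℝ, |x - p.1| ≤ δ → |y - p.2| ≤ δ → |U x y| ≤ m) →
      ∀ x y : ℝ, |x - p.1| ≤ N * δ → |y - p.2| ≤ N * δ →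
        |U x y| ≤ m * Real.exp (N * (20000 * (2 * n1 + 2 * n2 + 1))))
    {lam : ℝ} {φ : ℝ × ℝ → ℝ} (hφ : Eigen (fun p => r p.1) L α lam φ) (p : ℝ × ℝ) (n1 n2 : ℕ)
    (h1 : ∀ t, |t - p.1| ≤ (N + 4) * (β * dl lam) → |t + β * dl lam - p.1| ≤
      (N + 4) * (β * dl lam) → ∃ a ∈ Icc t (t + β * dl lam), ∃ Z : Finset ℝ, Z.card ≤ n1 ∧
        ∀ s, |s - p.2| ≤ (N + 4) * (β * dl lam) → φ (a, s) = 0 → s ∈ Z)
    (h2 : ∀ t, |t - p.2| ≤ (N + 4) * (β * dl lam) → |t + β * dl lam - p.2| ≤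
      (N + 4) * (β * dl lam) → ∃ a ∈ Icc t (t + β * dl lam), ∃ Z : Finset ℝ, Z.card ≤ n2 ∧
        ∀ s, |s - p.1| ≤ (N + 4) * (β * dl lam) → φ (s, a) = 0 → s ∈ Z) :
    doubling (fun p => r p.1) L α φ p (C / Real.sqrt lam) ≤
      N * (20000 * (2 * n1 + 2 * n2 + 1)) / Real.log 2 := by
  have hlam := hφ.pos
  have hdl := dl_pos hlam
  have hδ0 : 0 < β * dl lam := mul_pos hβ hdl
  have hρc : Continuous fun p : ℝ × ℝ => r p.1 := hr.comp continuous_fst
  have hρM0 : 0 < ρM := hρm0.trans_le ((hρm 0).trans (hρM 0))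
  obtain ⟨φx, φxx, φy, φyy, hs2⟩ := sol_of_eigen hρc hφ
  have hdb := dbl2 (ρ := fun p : ℝ × ℝ => r p.1) (α := α) hL hρc (fun p => hrL p.1)
    (fun _ => rfl) hρm0 (fun p => hρm p.1) (fun p => hρM p.1) hC hβ hβ1 hβC hN hlam
    hφ.smooth.continuous hφ.perx hφ.pery p
    (Λ := Real.exp (N * (20000 * (2 * n1 + 2 * n2 + 1))))
    (Real.one_le_exp (by positivity)) (fun m hm hsmall q hq1 hq2 => by
      have hq1' : |q.1 - p.1| ≤ N * (β * dl lam) := by
        rw [← mul_assoc]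
        exact hq1
      have hq2' : |q.2 - p.2| ≤ N * (β * dl lam) := by
        rw [← mul_assoc]
        exact hq2
      have h3 := hgr (fun x => lam * r x) (fun x y => φ (x, y)) φx φxx φy φyy (by fun_prop) hs2 p
        (β * dl lam) N n1 n2 hδ0 (fun x _ => by
          have e1 := dl_sq hlam
          have e2 : dl lam ^ 2 * lam ≤ 1 / 4 := by
            have e3 : 4 * dl lam ^ 2 * lam = lam / (1 + lam) := by
              rw [e1]
              ring
            have e4 : lam / (1 + lam) ≤ 1 := by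
              rw [div_le_one (by linarith)]
              linarith
            linarith
          have e5 : 0 ≤ r x := hρm0.le.trans (hρm x)
          rw [abs_of_nonneg (by positivity)]
          have e6 : (β * dl lam) ^ 2 * (lam * r x) = (dl lam ^ 2 * lam) * (β * (β * r x)) := by
            ring
          rw [e6]
          have e7 : β * r x ≤ ε := (mul_le_mul_of_nonneg_left (hρM x) hβ.le).trans hβε
          have e8 : 0 ≤ β * r x := by positivity
          have e9 : β * (β * r x) ≤ ε := by nlinarith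
          have e10 : 0 ≤ β * (β * r x) := by positivity
          calc (dl lam ^ 2 * lam) * (β * (β * r x)) ≤ 1 / 4 * (β * (β * r x)) :=
                mul_le_mul_of_nonneg_right e2 e10
            _ ≤ ε := by linarith) h1 h2 m hm
        (fun x y hx hy => hsmall (x, y) hx hy) q.1 q.2 hq1' hq2'
      rwa [mul_comm] at h3)
  refine hdb.trans (le_of_eq ?_)
  rw [← Real.log_div_log, Real.log_exp]

theorem real_bound {lam β : ℝ} (hlam : 0 < lam) (hβ : 0 < β) :
    1 / (β * dl lam) = 2 * Real.sqrt (1 + lam) / β := by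
  unfold dl
  have : 0 < Real.sqrt (1 + lam) := Real.sqrt_pos.2 (by linarith)
  field_simp

open Classical in
/-- The result. -/
theorem main {r : ℝ → ℝ} {L α : ℝ} (hL : 0 < L) (hr : Continuous r)
    (hrL : ∀ x, r (x + L) = r x) (hpos : ∀ x, 0 < r x) {C C₁ C₂ : ℝ} (hC : 0 < C) (hC1 : 0 < C₁)
    (hC2 : 0 < C₂) :
    ∃ a : ℝ, 0 < a ∧ ∀ (lam : ℝ) (φ : ℝ × ℝ → ℝ), Eigen (fun p => r p.1) L α lam φ →
      ∀ (ι : Type) [Fintype ι] (c : ι → ℝ × ℝ),
        Admissible (fun p => r p.1) L α lam φ C C₁ C₂ c →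
        ∑ i, doubling (fun p => r p.1) L α φ (c i) (C / Real.sqrt lam) ≤ a * Fintype.card ι := by
  have hπ := Real.pi_pos
  have h2π : (0 : ℝ) < 2 * π := Real.two_pi_pos
  have hρc : Continuous fun p : ℝ × ℝ => r p.1 := hr.comp continuous_fst
  have hρx : ∀ p : ℝ × ℝ, (fun p : ℝ × ℝ => r p.1) (p.1 + L, p.2 + α) =
      (fun p : ℝ × ℝ => r p.1) p := fun p => hrL p.1
  have hρy : ∀ p : ℝ × ℝ, (fun p : ℝ × ℝ => r p.1) (p.1, p.2 + 2 * π) =
      (fun p : ℝ × ℝ => r p.1) p := fun _ => rfl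
  obtain ⟨ρm, hρm0, hρm'⟩ := bounded_below_of_per hL hρc (fun p => hpos p.1) hρx hρy
  obtain ⟨ρM, hρM0', hρM'⟩ := bounded_of_per hL hρc hρx hρy
  have hρm : ∀ x, ρm ≤ r x := fun x => hρm' (x, 0)
  have hρM : ∀ x, r x ≤ ρM := fun x => (le_abs_self _).trans (hρM' (x, 0))
  have hρM0 : 0 < ρM := hρm0.trans_le ((hρm 0).trans (hρM 0))
  have hsM : 0 ≤ Real.sqrt ρM := Real.sqrt_nonneg _
  obtain ⟨ε, hε, hgr⟩ := SR.growth2
  obtain ⟨β, hβ, hβ1, hβC, hβε⟩ : ∃ β : ℝ, 0 < β ∧ β ≤ 1 ∧ 8 * β * Real.sqrt ρM ≤ C ∧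
      β * ρM ≤ ε := by
    refine ⟨min 1 (min (C / (8 * (Real.sqrt ρM + 1))) (ε / ρM)), by positivity, min_le_left _ _,
      ?_, ?_⟩
    · have h1 : min 1 (min (C / (8 * (Real.sqrt ρM + 1))) (ε / ρM)) ≤
          C / (8 * (Real.sqrt ρM + 1)) := (min_le_right _ _).trans (min_le_left _ _)
      calc 8 * min 1 (min (C / (8 * (Real.sqrt ρM + 1))) (ε / ρM)) * Real.sqrt ρM
          ≤ 8 * (C / (8 * (Real.sqrt ρM + 1))) * Real.sqrt ρM := by gcongr
        _ = C * (Real.sqrt ρM / (Real.sqrt ρM + 1)) := by field_simp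
        _ ≤ C * 1 := by
          refine mul_le_mul_of_nonneg_left ?_ hC.le
          rw [div_le_one (by positivity)]
          linarith
        _ = C := mul_one C
    · have h1 : min 1 (min (C / (8 * (Real.sqrt ρM + 1))) (ε / ρM)) ≤ ε / ρM :=
        (min_le_right _ _).trans (min_le_right _ _)
      calc min 1 (min (C / (8 * (Real.sqrt ρM + 1))) (ε / ρM)) * ρM ≤ ε / ρM * ρM := by gcongr
        _ = ε := by field_simp
  obtain ⟨N, hN⟩ := exists_nat_ge ((6 * C / Real.sqrt ρm + 3 * L + 6 * π) / β)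
  rw [div_le_iff₀ hβ] at hN
  obtain ⟨R, hR⟩ := exists_nat_ge (((N : ℝ) + 4) / L + (N + 4))
  have hlog2 : 0 < Real.log 2 := Real.log_pos one_lt_two
  -- the constants
  set X : ℝ := (R + 1) * L with hX
  have hX0 : 0 < X := by positivity
  set M0 : ℝ := (2 * ((N + 4 : ℕ) : ℝ) + 1) ^ 2 * C₁ with hM0
  have hM00 : 0 ≤ M0 := by positivity
  set sM : ℝ := Real.sqrt ρM with hsM'
  set K1 : ℝ := (2 * (X * (2 / β) + 2) + 1) * ((2 * ((R + 1 : ℕ) : ℝ) + 1) * (2 * π * sM)) * M0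
    with hK1
  set K2 : ℝ := (2 * ((R : ℝ) + 3) + 1) * ((2 * π * (2 / β) + 1) *
    (1 + (2 * X + (2 * R + 3 : ℕ) * L) * (2 * sM))) * M0 with hK2
  have hK10 : 0 ≤ K1 := by positivity
  have hK20 : 0 ≤ K2 := by positivity
  refine ⟨N * 20000 / Real.log 2 * ((2 * K1 + 2 * K2) * (1 + C₂) + 1) + 1, by positivity, ?_⟩
  intro lam φ hφ ι _ c hc
  have hlam := hφ.pos
  have hdl := dl_pos hlam
  have hdl2 := dl_le hlam
  set δ := β * dl lam with hδ
  have hδ0 : 0 < δ := mul_pos hβ hdl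
  have hδ1 : δ ≤ 1 := by
    have e1 : β * dl lam ≤ 1 * 1 := mul_le_mul hβ1 (by linarith) hdl.le zero_le_one
    linarith
  set Λ : ℝ := lam * ρM with hΛ
  have hΛ0 : 0 < Λ := by positivity
  -- the solution
  obtain ⟨φx, φxx, φy, φyy, hs2⟩ := sol_of_eigen hρc hφ
  have hsol : Sol (fun x => lam * r x) (fun x y => φ (x, y)) φx φxx φy φyy :=
    ⟨by fun_prop, hs2.c, hs2.cx, hs2.cxx, hs2.cy, hs2.cyy, hs2.dx, hs2.dxx, hs2.dy, hs2.dyy,
      hs2.pde⟩
  have hper : ∀ x y, (fun x y => φ (x, y)) x (y + 2 * π) = (fun x y => φ (x, y)) x y := fun x y =>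
    hφ.pery (x, y)
  have hperx : ∀ x y, (fun x y => φ (x, y)) (x + L) (y + α) = (fun x y => φ (x, y)) x y :=
    fun x y => hφ.perx (x, y)
  obtain ⟨B1, hB10, hB1⟩ := bounded_of_per hL hφ.smooth.continuous hφ.perx hφ.pery
  obtain ⟨B2, hB20, hB2⟩ := bounded_of_per (L := L) (α := α) hL (f := Function.uncurry φx) hsol.cx
    (fun p => htwx hsol hperx p.1 p.2) (fun p => hperx' hsol hper p.1 p.2)
  have hq0 : ∀ x, 0 ≤ lam * r x := fun x => mul_nonneg hlam.le (hpos x).le
  have hqΛ : ∀ x, lam * r x ≤ Λ := fun x => mul_le_mul_of_nonneg_left (hρM x) hlam.le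
  have hseg : ∀ y0, (∃ x, φ (x, y0) ≠ 0) → ∃ k0 : ℕ, SegB (fun x => φ (x, y0))
      (2 * Real.sqrt Λ) k0 := fun y0 hne =>
    zeros_hor hsol hper hL hperx (B := B1 + B2) (fun x y => (hB1 (x, y)).trans (by linarith))
      (fun x y => (hB2 (x, y)).trans (by linarith)) hΛ0 hq0 hqΛ y0 hne
  have hvert : ∀ x0, (∃ y, φ (x0, y) ≠ 0) → ∀ Z : Finset ℝ,
      (∀ z ∈ Z, z ∈ Ico 0 (2 * π) ∧ φ (x0, z) = 0) → (Z.card : ℝ) ≤ 2 * π * Real.sqrt Λ :=
    fun x0 hne Z hZ => zeros_vert hsol hper (B := B1) (fun x y => hB1 (x, y)) hΛ0 hqΛ x0 hne hZ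
  obtain ⟨pz, hpz⟩ := hφ.ne
  -- the grids
  obtain ⟨hn2, hs2δ, hN2⟩ := LT.grid_n h2π hδ0
  set N2 : ℕ := ⌈2 * π / δ⌉₊ with hN2d
  have hn2r : (0 : ℝ) < N2 := by exact_mod_cast hn2
  set h2 : ℝ := 2 * π / N2 with hh2
  have hh20 : 0 < h2 := div_pos h2π hn2r
  obtain ⟨η0, hη0⟩ := offset (E := {y | φ (pz.1, y) = 0})
    (LS.zeros_countable h2π (fun y => hφ.pery (pz.1, y)) (hvert pz.1 ⟨pz.2, hpz⟩)) h2
  obtain ⟨k00, hk00⟩ := hseg pz.2 ⟨pz.1, hpz⟩
  obtain ⟨ξ0, hξ0⟩ := offset (E := {x | φ (x, pz.2) = 0}) hk00.countable δ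
  obtain ⟨kξ, hkξ⟩ := LS.reduce0 hδ0 ξ0
  set ξ : ℝ := ξ0 + kξ * δ with hξ
  have hξg : ∀ k : ℤ, φ (ξ + k * δ, pz.2) ≠ 0 := by
    intro k h
    apply hξ0 (kξ + k)
    show φ (ξ0 + ((kξ + k : ℤ) : ℝ) * δ, pz.2) = 0
    rw [← h, hξ]
    congr 2
    push_cast
    ring
  have h2XP : 2 * X < ((2 * R + 3 : ℕ) : ℝ) * L := by
    rw [hX]
    push_cast
    have e1 : (2 * (R : ℝ) + 3) * L = 2 * (((R : ℝ) + 1) * L) + L := by ring
    linarith
  obtain ⟨η, H, hη, hH, hHsum⟩ := pick_rows (φ := φ) hL hφ.perx hφ.pery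
    (s := 2 * Real.sqrt Λ) (by positivity) hseg η0 N2 (fun k => ⟨pz.1, by
      have := hη0 (k : ℤ)
      rwa [Int.cast_natCast] at this⟩) hX0.le (2 * R + 3) h2XP
  -- vertical lines
  have hVb : ∀ k : ℤ, ∀ Z : Finset ℝ, (∀ z ∈ Z, |z| ≤ (R + 1) * (2 * π) ∧
      φ (ξ + k * δ, z) = 0) → (Z.card : ℝ) ≤
        (2 * ((R + 1 : ℕ) : ℝ) + 1) * (2 * π * Real.sqrt Λ) := by
    intro k Z hZ
    exact SR.per_count h2π (u := fun y => φ (ξ + k * δ, y)) (fun y => hφ.pery (ξ + k * δ, y))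
      (hvert (ξ + k * δ) ⟨pz.2, hξg k⟩) (Θ := (R + 1) * (2 * π)) (D := R + 1)
      (by push_cast; exact le_rfl) hZ
  have hVfin : ∀ k : ℤ, {z | |z| ≤ (R + 1) * (2 * π) ∧ φ (ξ + k * δ, z) = 0}.Finite := fun k =>
    LT.finite_of_bound fun Z hZ => hVb k Z hZ
  set V : ℤ → Finset ℝ := fun k => (hVfin k).toFinset with hV
  have hVm : ∀ k z, z ∈ V k ↔ |z| ≤ (R + 1) * (2 * π) ∧ φ (ξ + k * δ, z) = 0 := by
    intro k z
    rw [hV]
    simp only
    rw [Set.Finite.mem_toFinset]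
    exact Iff.rfl
  have hVc : ∀ k, ((V k).card : ℝ) ≤ (2 * ((R + 1 : ℕ) : ℝ) + 1) * (2 * π * Real.sqrt Λ) :=
    fun k => hVb k (V k) fun z hz => (hVm k z).1 hz
  -- the normalised centers
  have hred := fun i => reduce hL α 0 0 (c i)
  choose mm nn hmm using hred
  set c' : ι → ℝ × ℝ := fun i =>
    ((c i).1 + mm i * L, (c i).2 + mm i * α + nn i * (2 * π)) with hc'
  have hdc : ∀ i r', disc (fun p : ℝ × ℝ => r p.1) L α (c' i) r' =
      disc (fun p : ℝ × ℝ => r p.1) L α (c i) r' := fun i r' => disc_shift hρx hρy _ _ _ _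
  have hmult : ∀ q : ℝ × ℝ, ({i | q ∈ disc (fun p : ℝ × ℝ => r p.1) L α (c' i)
      (C / Real.sqrt lam)}.ncard : ℝ) ≤ C₁ := by
    intro q
    simp only [hdc]
    exact hc.mult q
  have hc1 : ∀ i, 0 ≤ (c' i).1 ∧ (c' i).1 < L := fun i => by
    have := (hmm i).1
    rw [zero_add] at this
    exact this
  have hc2 : ∀ i, 0 ≤ (c' i).2 ∧ (c' i).2 < 2 * π := fun i => by
    have := (hmm i).2
    rw [zero_add] at this
    exact this
  -- the windows
  set D : ℝ := ((N + 4 : ℕ) : ℝ) * δ with hD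
  have hD' : D = ((N : ℝ) + 4) * δ := by rw [hD]; push_cast; ring
  have hD0 : 0 ≤ D := by positivity
  have hDN : D ≤ (N : ℝ) + 4 := by
    rw [hD']
    have e1 : ((N : ℝ) + 4) * δ ≤ ((N : ℝ) + 4) * 1 :=
      mul_le_mul_of_nonneg_left hδ1 (by positivity)
    linarith
  have hNL0 : 0 ≤ ((N : ℝ) + 4) / L := by positivity
  have hDL : D ≤ R * L := by
    have h3 : ((N : ℝ) + 4) / L ≤ R := by linarith
    rw [div_le_iff₀ hL] at h3
    linarith
  have hDπ : D ≤ R * (2 * π) := by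
    have h3 : (N : ℝ) + 4 ≤ R := by linarith
    have h4 : (1 : ℝ) ≤ 2 * π := by linarith [Real.pi_gt_three]
    have h5 : (R : ℝ) * 1 ≤ R * (2 * π) := mul_le_mul_of_nonneg_left h4 (Nat.cast_nonneg _)
    linarith
  -- the numbers of the zeros
  set M1 : ℕ := ⌈X / δ⌉₊ + 1 with hM1
  set I1 : Finset ℤ := Finset.Icc (-(M1 : ℤ)) M1 with hI1
  set I2 : Finset (ℤ × ℕ) := Finset.Icc (-((R + 3 : ℕ) : ℤ)) (R + 3 : ℕ) ×ˢ Finset.range N2 with hI2
  set R1 : ℤ → ℝ → ι → Prop := fun k z i => |ξ + k * δ - (c' i).1| ≤ D ∧ |z - (c' i).2| ≤ D with hR1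
  set R2 : ℤ × ℕ → ℝ → ι → Prop := fun k z i =>
    |z - (c' i).1| ≤ D ∧ |η + k.2 * h2 + k.1 * (2 * π) - (c' i).2| ≤ D with hR2
  set n1 : ι → ℕ := fun i => ∑ k ∈ I1, ((V k).filter fun z => R1 k z i).card with hn1d
  set n2 : ι → ℕ := fun i => ∑ k ∈ I2, ((H k.2).filter fun z => R2 k z i).card with hn2d
  have hsum1 : ∑ i, (n1 i : ℝ) ≤ K1 * (1 + lam) := by
    have e1 := dbl_count (ι := ι) (K := I1) (V := V) (R := R1) (M0 := M0) (fun k _ z _ => by
      have := mult_count hL hρc hρx hρy hρm0 (fun p => hρm p.1) (fun p => hρM p.1) hC hβ hβ1 hβC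
        (A := 6 * C / Real.sqrt ρm + 3 * L + 6 * π) le_rfl hlam (c := c') hmult (N + 4)
        (ξ + k * δ) z
      exact this)
    refine e1.trans ?_
    have e2 : ∑ k ∈ I1, ((V k).card : ℝ) ≤
        (2 * (X / δ + 2) + 1) * ((2 * ((R + 1 : ℕ) : ℝ) + 1) * (2 * π * Real.sqrt Λ)) := by
      refine (Finset.sum_le_sum fun k _ => hVc k).trans ?_
      rw [Finset.sum_const, nsmul_eq_mul]
      refine mul_le_mul_of_nonneg_right ?_ (by positivity)
      rw [hI1, Int.card_Icc]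
      have e3 : ((M1 : ℤ) + 1 - -(M1 : ℤ)).toNat = 2 * M1 + 1 := by omega
      rw [e3]
      have e4 := (Nat.ceil_lt_add_one (show 0 ≤ X / δ by positivity)).le
      rw [hM1]
      push_cast
      linarith
    have e5 : Real.sqrt Λ = Real.sqrt lam * sM := Real.sqrt_mul hlam.le _
    have e6 : Real.sqrt lam ≤ Real.sqrt (1 + lam) := Real.sqrt_le_sqrt (by linarith)
    have e7 : Real.sqrt (1 + lam) * Real.sqrt (1 + lam) = 1 + lam :=
      Real.mul_self_sqrt (by linarith)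
    have e8 : 1 ≤ Real.sqrt (1 + lam) := by
      rw [Real.one_le_sqrt]
      linarith
    have e9 : X / δ = X * (2 / β) * Real.sqrt (1 + lam) := by
      have := real_bound hlam hβ
      rw [← hδ] at this
      rw [div_eq_mul_one_div, this]
      ring
    calc (∑ k ∈ I1, ((V k).card : ℝ)) * M0
        ≤ ((2 * (X / δ + 2) + 1) * ((2 * ((R + 1 : ℕ) : ℝ) + 1) * (2 * π * Real.sqrt Λ))) * M0 :=
          mul_le_mul_of_nonneg_right e2 hM00
      _ ≤ (((2 * (X * (2 / β) + 2) + 1) * Real.sqrt (1 + lam)) *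
          ((2 * ((R + 1 : ℕ) : ℝ) + 1) * (2 * π * (Real.sqrt (1 + lam) * sM)))) * M0 := by
          rw [e9, e5]
          have e10 : 2 * (X * (2 / β) * Real.sqrt (1 + lam) + 2) + 1 ≤
              (2 * (X * (2 / β) + 2) + 1) * Real.sqrt (1 + lam) := by
            have e11 : (2 * (X * (2 / β) + 2) + 1) * Real.sqrt (1 + lam) =
                2 * (X * (2 / β) * Real.sqrt (1 + lam)) + 5 * Real.sqrt (1 + lam) := by ring
            rw [e11]
            linarith
          gcongr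
      _ = K1 * (Real.sqrt (1 + lam) * Real.sqrt (1 + lam)) := by
          rw [hK1]
          ring
      _ = K1 * (1 + lam) := by rw [e7]
  have hsum2 : ∑ i, (n2 i : ℝ) ≤ K2 * (1 + lam) := by
    have e1 := dbl_count (ι := ι) (K := I2) (V := fun k => H k.2) (R := R2) (M0 := M0)
      (fun k _ z _ => by
      have := mult_count hL hρc hρx hρy hρm0 (fun p => hρm p.1) (fun p => hρM p.1) hC hβ hβ1 hβC
        (A := 6 * C / Real.sqrt ρm + 3 * L + 6 * π) le_rfl hlam (c := c') hmult (N + 4)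
        z (η + k.2 * h2 + k.1 * (2 * π))
      exact this)
    refine e1.trans ?_
    have e2 : ∑ k ∈ I2, ((H k.2).card : ℝ) ≤ (2 * ((R : ℝ) + 3) + 1) *
        (N2 * (1 + (2 * X + (2 * R + 3 : ℕ) * L) * (2 * Real.sqrt Λ))) := by
      rw [hI2, Finset.sum_product]
      simp only
      rw [Finset.sum_const, nsmul_eq_mul, Int.card_Icc]
      have e3 : (((R + 3 : ℕ) : ℤ) + 1 - -((R + 3 : ℕ) : ℤ)).toNat = 2 * (R + 3) + 1 := by omega
      rw [e3]
      push_cast at hHsum ⊢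
      exact mul_le_mul_of_nonneg_left hHsum (by positivity)
    have e5 : Real.sqrt Λ = Real.sqrt lam * sM := Real.sqrt_mul hlam.le _
    have e6 : Real.sqrt lam ≤ Real.sqrt (1 + lam) := Real.sqrt_le_sqrt (by linarith)
    have e7 : Real.sqrt (1 + lam) * Real.sqrt (1 + lam) = 1 + lam :=
      Real.mul_self_sqrt (by linarith)
    have e8 : 1 ≤ Real.sqrt (1 + lam) := by
      rw [Real.one_le_sqrt]
      linarith
    have e9 : 2 * π / δ = 2 * π * (2 / β) * Real.sqrt (1 + lam) := by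
      have := real_bound hlam hβ
      rw [← hδ] at this
      rw [div_eq_mul_one_div, this]
      ring
    have e10 : (N2 : ℝ) ≤ (2 * π * (2 / β) + 1) * Real.sqrt (1 + lam) := by
      rw [e9] at hN2
      have e11 : (2 * π * (2 / β) + 1) * Real.sqrt (1 + lam) =
          2 * π * (2 / β) * Real.sqrt (1 + lam) + Real.sqrt (1 + lam) := by ring
      rw [e11]
      linarith
    have e11 : 1 + (2 * X + (2 * R + 3 : ℕ) * L) * (2 * (Real.sqrt lam * sM)) ≤
        (1 + (2 * X + (2 * R + 3 : ℕ) * L) * (2 * sM)) * Real.sqrt (1 + lam) := by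
      have e12 : (2 * X + (2 * R + 3 : ℕ) * L) * (2 * (Real.sqrt lam * sM)) ≤
          (2 * X + (2 * R + 3 : ℕ) * L) * (2 * (Real.sqrt (1 + lam) * sM)) := by gcongr
      have e13 : (1 + (2 * X + (2 * R + 3 : ℕ) * L) * (2 * sM)) * Real.sqrt (1 + lam) =
          Real.sqrt (1 + lam) +
            (2 * X + (2 * R + 3 : ℕ) * L) * (2 * (Real.sqrt (1 + lam) * sM)) := by ring
      rw [e13]
      linarith
    calc (∑ k ∈ I2, ((H k.2).card : ℝ)) * M0
        ≤ ((2 * ((R : ℝ) + 3) + 1) *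
          (N2 * (1 + (2 * X + (2 * R + 3 : ℕ) * L) * (2 * Real.sqrt Λ)))) * M0 :=
          mul_le_mul_of_nonneg_right e2 hM00
      _ ≤ ((2 * ((R : ℝ) + 3) + 1) * (((2 * π * (2 / β) + 1) * Real.sqrt (1 + lam)) *
          ((1 + (2 * X + (2 * R + 3 : ℕ) * L) * (2 * sM)) * Real.sqrt (1 + lam)))) * M0 := by
          rw [e5]
          gcongr
      _ = K2 * (Real.sqrt (1 + lam) * Real.sqrt (1 + lam)) := by
          rw [hK2]
          ring
      _ = K2 * (1 + lam) := by rw [e7]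
  -- the doubling index of a disc
  have hdisc : ∀ i, doubling (fun p => r p.1) L α φ (c i) (C / Real.sqrt lam) ≤
      N * 20000 / Real.log 2 * (2 * (n1 i : ℝ) + 2 * (n2 i : ℝ) + 1) := by
    intro i
    have e0 : doubling (fun p => r p.1) L α φ (c' i) (C / Real.sqrt lam) =
        doubling (fun p => r p.1) L α φ (c i) (C / Real.sqrt lam) :=
      doubling_shift hρx hρy φ (c i) (mm i) (nn i) _
    rw [← e0]
    have e1 := disc_bound hL hr hrL hρm0 hρm hρM hC hβ hβ1 hβC hN hβε hgr hφ (c' i)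
      (n1 i) (n2 i) (fun t ht1 ht2 => by
        rw [← hδ, ← hD'] at ht1 ht2
        obtain ⟨k, hk⟩ := LT.grid_line (ξ := ξ) hδ0 le_rfl t
        rw [abs_le] at ht1 ht2
        have ha : |ξ + k * δ - (c' i).1| ≤ D := by
          rw [abs_le]
          constructor <;> linarith [hk.1, hk.2]
        refine ⟨ξ + k * δ, hk, (V k).filter fun z => R1 k z i, ?_, fun s hs h0 => ?_⟩
        · refine Finset.single_le_sum (f := fun k => ((V k).filter fun z => R1 k z i).card)
            (fun _ _ => Nat.zero_le _) ?_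
          rw [hI1, Finset.mem_Icc]
          have h3 : |(k : ℝ)| ≤ M1 := by
            have h4 : |(k : ℝ)| * δ ≤ X + δ := by
              rw [← abs_of_pos hδ0, ← abs_mul, abs_of_pos hδ0, abs_le]
              rw [abs_le] at ha
              have h5 := hc1 i
              have h6 := hkξ.1
              have h7 := hkξ.2
              have h8 : X = R * L + L := by rw [hX]; ring
              constructor <;> linarith [ha.1, ha.2, h5.1, h5.2]
            have h5 : |(k : ℝ)| ≤ X / δ + 1 := by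
              rw [← sub_le_iff_le_add, le_div_iff₀ hδ0]
              linarith
            have h6 := Nat.le_ceil (X / δ)
            rw [hM1]
            push_cast
            linarith
          have h4 : |k| ≤ (M1 : ℤ) := by exact_mod_cast h3
          exact abs_le.1 h4
        · rw [← hδ, ← hD'] at hs
          refine Finset.mem_filter.2 ⟨(hVm k s).2 ⟨?_, h0⟩, ha, hs⟩
          rw [abs_le] at hs ⊢
          have h5 := hc2 i
          have h8 : ((R : ℝ) + 1) * (2 * π) = R * (2 * π) + 2 * π := by ring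
          rw [h8]
          constructor <;> linarith [hs.1, hs.2, h5.1, h5.2])
      (fun t ht1 ht2 => by
        rw [← hδ, ← hD'] at ht1 ht2
        obtain ⟨k, hk⟩ := LT.grid_line (ξ := η) hh20 hs2δ t
        rw [abs_le] at ht1 ht2
        -- the row and the period
        have hN2z : (0 : ℤ) < N2 := by exact_mod_cast hn2
        obtain ⟨j, hj⟩ : ∃ j : ℕ, (j : ℤ) = k % N2 := ⟨(k % N2).toNat,
          Int.toNat_of_nonneg (Int.emod_nonneg _ hN2z.ne')⟩
        have hjlt : j < N2 := by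
          have := Int.emod_lt_of_pos k hN2z
          omega
        set l : ℤ := k / N2 with hl
        have hkjl : (k : ℝ) = j + l * N2 := by
          have h3 : k = (j : ℤ) + l * N2 := by
            rw [hj, hl]
            have := Int.emod_add_mul_ediv k N2
            linarith
          rw [h3]
          push_cast
          ring
        have hy : η + k * h2 = η + j * h2 + l * (2 * π) := by
          rw [hkjl, hh2]
          field_simp
          ring
        have ha : |η + j * h2 + l * (2 * π) - (c' i).2| ≤ D := by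
          rw [← hy, abs_le]
          constructor <;> linarith [hk.1, hk.2]
        refine ⟨η + k * h2, hk, (H j).filter fun z => R2 (l, j) z i, ?_, fun s hs h0 => ?_⟩
        · refine Finset.single_le_sum (f := fun k => ((H k.2).filter fun z => R2 k z i).card)
            (fun _ _ => Nat.zero_le _) (a := (l, j)) ?_
          rw [hI2, Finset.mem_product, Finset.mem_Icc]
          refine ⟨?_, Finset.mem_range.2 hjlt⟩
          have h3 : |(l : ℝ)| ≤ (R : ℝ) + 3 := by
            have h4 : |(l : ℝ)| * (2 * π) ≤ (R + 3) * (2 * π) := by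
              rw [← abs_of_pos h2π, ← abs_mul, abs_of_pos h2π, abs_le]
              rw [abs_le] at ha
              have h5 := hc2 i
              have h6 : 0 ≤ (j : ℝ) * h2 := by positivity
              have h7 : (j : ℝ) * h2 ≤ 2 * π := by
                rw [hh2]
                have h8 : (j : ℝ) ≤ N2 := by exact_mod_cast hjlt.le
                calc (j : ℝ) * (2 * π / N2) ≤ N2 * (2 * π / N2) := by gcongr
                  _ = 2 * π := by field_simp
              have h9 := hη.1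
              have h10 := hη.2
              have h11 : ((R : ℝ) + 3) * (2 * π) = R * (2 * π) + 3 * (2 * π) := by ring
              rw [h11]
              constructor <;> linarith [ha.1, ha.2, h5.1, h5.2]
            exact le_of_mul_le_mul_right h4 h2π
          have h4 : |l| ≤ ((R + 3 : ℕ) : ℤ) := by
            have h5 : ((|l| : ℤ) : ℝ) ≤ (((R + 3 : ℕ) : ℤ) : ℝ) := by
              push_cast
              exact h3
            exact_mod_cast h5
          exact abs_le.1 h4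
        · rw [← hδ, ← hD'] at hs
          refine Finset.mem_filter.2 ⟨hH j s ?_ ?_, hs, ha⟩
          · rw [abs_le] at hs ⊢
            have h5 := hc1 i
            have h8 : X = R * L + L := by rw [hX]; ring
            rw [h8]
            constructor <;> linarith [hs.1, hs.2, h5.1, h5.2]
          · have h5 := per_all hφ.perx hφ.pery 0 l (s, η + j * h2)
            have h6 : ((s, η + j * h2).1 + ((0 : ℤ) : ℝ) * L,
                (s, η + j * h2).2 + ((0 : ℤ) : ℝ) * α + (l : ℝ) * (2 * π)) =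
                (s, η + k * h2) := by
              refine Prod.ext ?_ ?_
              · simp
              · rw [hy]
                push_cast
                ring
            rw [h6, h0] at h5
            exact h5.symm)
    refine e1.trans (le_of_eq ?_)
    ring
  -- conclusion
  have hcard1 : (1 : ℝ) ≤ Fintype.card ι := by
    have h1 : (0 : ℝ) < Fintype.card ι := lt_of_lt_of_le (by positivity) hc.lower
    have h2 : 0 < Fintype.card ι := by exact_mod_cast h1
    exact_mod_cast h2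
  have hcard2 : lam ≤ C₂ * Fintype.card ι := by
    have := hc.lower
    rw [inv_mul_le_iff₀ hC2] at this
    exact this
  have hcard3 : 1 + lam ≤ (1 + C₂) * Fintype.card ι := by
    have e1 : (1 + C₂) * (Fintype.card ι : ℝ) = Fintype.card ι + C₂ * Fintype.card ι := by ring
    rw [e1]
    linarith
  have hN0 : 0 ≤ (N : ℝ) * 20000 / Real.log 2 := by positivity
  calc ∑ i, doubling (fun p => r p.1) L α φ (c i) (C / Real.sqrt lam)
      ≤ ∑ i, (N * 20000 / Real.log 2) * (2 * (n1 i : ℝ) + 2 * (n2 i : ℝ) + 1) :=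
        Finset.sum_le_sum fun i _ => hdisc i
    _ = (N * 20000 / Real.log 2) * (2 * ∑ i, (n1 i : ℝ) + 2 * ∑ i, (n2 i : ℝ) +
        Fintype.card ι) := by
        rw [← Finset.mul_sum, Finset.sum_add_distrib, Finset.sum_add_distrib, ← Finset.mul_sum,
          ← Finset.mul_sum, Finset.sum_const, Finset.card_univ, nsmul_eq_mul, mul_one]
    _ ≤ (N * 20000 / Real.log 2) * (2 * (K1 * (1 + lam)) + 2 * (K2 * (1 + lam)) +
        Fintype.card ι) := by gcongr
    _ ≤ (N * 20000 / Real.log 2) * (2 * (K1 * ((1 + C₂) * Fintype.card ι)) +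
        2 * (K2 * ((1 + C₂) * Fintype.card ι)) + Fintype.card ι) := by gcongr
    _ = (N * 20000 / Real.log 2 * ((2 * K1 + 2 * K2) * (1 + C₂) + 1)) * Fintype.card ι := by ring
    _ ≤ (N * 20000 / Real.log 2 * ((2 * K1 + 2 * K2) * (1 + C₂) + 1) + 1) * Fintype.card ι := by
        refine mul_le_mul_of_nonneg_right ?_ (by linarith)
        linarith

end Pool.Agent.NH44.TT
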