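import Pool.Agent.NH44.LT.Sturm2

/-!
# Zeros on long segments of sums of bounded solutions
-/

set_option autoImplicit false

open Filter Topology Metric Set

namespace Pool.Agent.NH44.TT

open Pool.Agent.NH44.LT

/-- at least `m` zeros in `[a, b]` -/
def Zn (F : ℝ → ℝ) (a b : ℝ) (m : ℕ) : Prop :=
  ∃ z : ℕ → ℝ, (∀ i, i + 1 < m → z i < z (i + 1)) ∧ ∀ i, i < m → F (z i) = 0 ∧ z i ∈ Icc a b

theorem Zn_of {F : ℝ → ℝ} {a b : ℝ} {Z : Finset ℝ} (hZ : ∀ z ∈ Z, F z = 0 ∧ z ∈ Icc a b) :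
    Zn F a b Z.card := by
  set e := Z.orderEmbOfFin rfl with he
  have hmem : ∀ j, e j ∈ Z := fun j => Finset.orderEmbOfFin_mem _ _ j
  refine ⟨fun i => if h : i < Z.card then e ⟨i, h⟩ else 0, fun i hi => ?_, fun i hi => ?_⟩
  · have h1 : i < Z.card := by omega
    simp only [dif_pos h1, dif_pos hi]
    exact e.strictMono (by rw [Fin.mk_lt_mk]; exact Nat.lt_succ_self i)
  · simp only [dif_pos hi]
    exact hZ _ (hmem _)

theorem Zn_step {F F' F'' q : ℝ → ℝ} (hF : ∀ x, HasDerivAt F (F' x) x)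
    (hF' : ∀ x, HasDerivAt F' (F'' x) x) (hFc : Continuous F'') (hqc : Continuous q)
    (hq : ∀ x, 0 < q x) (hne : ∀ a b, a < b → ∃ x ∈ Ioo a b, F x ≠ 0) {a b : ℝ} {m : ℕ}
    (hZ : Zn F a b (m + 2)) : Zn (fun x => -F'' x + q x * F x) a b m := by
  have hFcont : Continuous F := continuous_iff_continuousAt.2 fun t => (hF t).continuousAt
  obtain ⟨z, hz, hz0⟩ := hZ
  have h1 : ∀ i, ∃ p, i + 1 < m + 2 → p ∈ Ioo (z i) (z (i + 1)) ∧ Gd F p := by
    intro i
    by_cases hi : i + 1 < m + 2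
    · obtain ⟨p, h1, h2⟩ := exists_gd hFcont (hz0 i (by omega)).1 (hz0 (i + 1) hi).1
        (hne _ _ (hz i hi))
      exact ⟨p, fun _ => ⟨h1, h2⟩⟩
    · exact ⟨0, fun h => absurd h hi⟩
  choose p hp using h1
  have h2 : ∀ i, ∃ ζ, i < m → ζ ∈ Ioo (p i) (p (i + 1)) ∧ -F'' ζ + q ζ * F ζ = 0 := by
    intro i
    by_cases hi : i < m
    · obtain ⟨a1, a2⟩ := hp i (by omega)
      obtain ⟨b1, b2⟩ := hp (i + 1) (by omega)
      obtain ⟨ζ, h3, h4⟩ := between hF hF' hFc hqc hq a2 b2 a1.2 b1.1 (hz0 (i + 1) (by omega)).1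
      exact ⟨ζ, fun _ => ⟨h3, h4⟩⟩
    · exact ⟨0, fun h => absurd h hi⟩
  choose ζ hζ using h2
  refine ⟨ζ, fun i hi => ?_, fun i hi => ?_⟩
  · exact (hζ i (by omega)).1.2.trans (hζ (i + 1) hi).1.1
  · obtain ⟨h3, h4⟩ := hζ i hi
    refine ⟨h4, ?_, ?_⟩
    · have h5 := (hp i (by omega)).1.1
      have h6 := (hz0 i (by omega)).2.1
      linarith [h3.1]
    · have h5 := (hp (i + 1) (by omega)).1.2
      have h6 := (hz0 (i + 1 + 1) (by omega)).2.2
      linarith [h3.2]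

/-- zeros at distances more than `l` -/
theorem Zn_gap {F : ℝ → ℝ} {a b l : ℝ} {m : ℕ} (hab : a ≤ b)
    (hgap : ∀ s t, s < t → F s = 0 → F t = 0 → l ≤ t - s) (hZ : Zn F a b m) :
    (m : ℝ) * l ≤ b - a + l ∨ m = 0 := by
  obtain ⟨z, hz, hz0⟩ := hZ
  rcases Nat.eq_zero_or_pos m with h0 | h0
  · exact Or.inr h0
  left
  have h1 : ∀ i, i < m → z 0 + i * l ≤ z i := by
    intro i
    induction i with
    | zero => intro _; simp
    | succ i ih =>
      intro hi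
      have h2 := ih (by omega)
      have h3 := hgap (z i) (z (i + 1)) (hz i hi) (hz0 i (by omega)).1 (hz0 (i + 1) hi).1
      push_cast
      linarith
  obtain ⟨j, rfl⟩ : ∃ j, m = j + 1 := ⟨m - 1, by omega⟩
  have h2 := h1 j (by omega)
  have h3 := (hz0 0 h0).2.1
  have h4 := (hz0 j (by omega)).2.2
  push_cast
  linarith

/-- the energy is small if `v` and `v'` are small at close points -/
theorem low_energy {v v' r : ℝ → ℝ} {Λ s t l ε : ℝ} (hv : ∀ x, HasDerivAt v (v' x) x)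
    (hv' : ∀ x, HasDerivAt v' (r x * v x) x) (hr : ∀ x, |r x| ≤ Λ) (ht : 0 ≤ t) (htl : t ≤ l)
    (hl : Λ * l ^ 2 ≤ 1 / 4) (hε : 0 ≤ ε) (h0 : |v s| ≤ ε) (h1 : |v' (s + t)| ≤ ε) :
    |v s| + |v' s| ≤ (2 + 2 * Λ * l * (1 + l)) * ε := by
  have hΛ : 0 ≤ Λ := (abs_nonneg _).trans (hr 0)
  have hvc : Continuous v := continuous_iff_continuousAt.2 fun t => (hv t).continuousAt
  have hst : s ≤ s + t := by linarith
  obtain ⟨p, hp, hmax⟩ := (isCompact_Icc (a := s) (b := s + t)).exists_isMaxOn ⟨s, le_rfl, hst⟩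
    hvc.abs.continuousOn
  set M := |v p| with hM
  have hMx : ∀ x ∈ Icc s (s + t), |v x| ≤ M := fun x hx => hmax hx
  have hM0 : 0 ≤ M := abs_nonneg _
  have hcv : Convex ℝ (Icc s (s + t)) := convex_Icc _ _
  have hs : s ∈ Icc s (s + t) := ⟨le_rfl, hst⟩
  have hst' : s + t ∈ Icc s (s + t) := ⟨hst, le_rfl⟩
  have hl0 : 0 ≤ l := ht.trans htl
  have k1 : ∀ x ∈ Icc s (s + t), |v' x| ≤ ε + Λ * M * l := by
    intro x hx
    have h2 := hcv.norm_image_sub_le_of_norm_hasDerivWithin_le (f := v')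
      (f' := fun t => r t * v t) (C := Λ * M) (fun t _ => (hv' t).hasDerivWithinAt)
      (fun t ht => by
        rw [norm_mul, Real.norm_eq_abs, Real.norm_eq_abs]
        exact mul_le_mul (hr t) (hMx t ht) (abs_nonneg _) hΛ) hst' hx
    rw [Real.norm_eq_abs, Real.norm_eq_abs] at h2
    have h3 : |x - (s + t)| ≤ l := by
      rw [abs_le]
      constructor <;> linarith [hx.1, hx.2]
    have h4 : |v' x - v' (s + t)| ≤ Λ * M * l :=
      h2.trans (mul_le_mul_of_nonneg_left h3 (by positivity))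
    have h5 : |v' x| ≤ |v' x - v' (s + t)| + |v' (s + t)| := by
      have := abs_add_le (v' x - v' (s + t)) (v' (s + t))
      simpa using this
    linarith
  have k2 : M ≤ ε + (ε + Λ * M * l) * l := by
    have h2 := hcv.norm_image_sub_le_of_norm_hasDerivWithin_le (f := v)
      (f' := v') (C := ε + Λ * M * l) (fun t _ => (hv t).hasDerivWithinAt)
      (fun t ht => by
        rw [Real.norm_eq_abs]
        exact k1 t ht) hs hp
    rw [Real.norm_eq_abs, Real.norm_eq_abs] at h2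
    have h3 : |p - s| ≤ l := by
      rw [abs_le]
      constructor <;> linarith [hp.1, hp.2]
    have h4 : |v p - v s| ≤ (ε + Λ * M * l) * l :=
      h2.trans (mul_le_mul_of_nonneg_left h3 (by positivity))
    have h5 : |v p| ≤ |v p - v s| + |v s| := by
      have := abs_add_le (v p - v s) (v s)
      simpa using this
    rw [hM]
    rw [← hM] at h5 ⊢
    linarith
  have k3 : M ≤ 2 * (1 + l) * ε := by
    have h2 : Λ * M * l * l ≤ 1 / 4 * M := by
      have := mul_le_mul_of_nonneg_left hl hM0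
      nlinarith
    have h3 : 0 ≤ l * ε := by positivity
    nlinarith
  have k4 := k1 s hs
  have k5 : Λ * M * l ≤ Λ * l * (2 * (1 + l) * ε) := by
    have := mul_le_mul_of_nonneg_left k3 (by positivity : 0 ≤ Λ * l)
    nlinarith
  calc |v s| + |v' s| ≤ ε + (ε + Λ * l * (2 * (1 + l) * ε)) := by linarith
    _ = _ := by ring

section

variable {q : ℝ → ℝ} {v v' : ℝ → ℝ → ℝ} (hqc : Continuous q)
  (hv : ∀ κ x, HasDerivAt (v κ) (v' κ x) x)
  (hv' : ∀ κ x, HasDerivAt (v' κ) ((q x - κ) * v κ x) x)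

include hqc hv hv' in
theorem Zn_iter {Q : ℝ} (hQ : ∀ x, |q x| ≤ Q) (hq0 : ∀ x, 0 < q x) {S : Finset ℝ}
    (hS : S.Nonempty) (hpos : ∀ κ ∈ S, 0 < κ) (hne : ∀ κ ∈ S, ∃ x, v κ x ≠ 0) {a b : ℝ} (k : ℕ) :
    ∀ m : ℕ, Zn (FS S (fun κ => κ ^ 0) v) a b (m + 2 * k) → Zn (FS S (fun κ => κ ^ k) v) a b m := by
  induction k with
  | zero =>
    intro m h0
    simpa using h0
  | succ k ih =>
    intro m h0
    have hvc : ∀ κ, Continuous (v κ) := fun κ =>
      continuous_iff_continuousAt.2 fun t => (hv κ t).continuousAt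
    have hFSc : ∀ c : ℝ → ℝ, Continuous (FS S c v) := fun c => by
      unfold FS
      exact continuous_finsetSum _ fun κ _ => continuous_const.mul (hvc κ)
    have e : m + 2 * (k + 1) = (m + 2) + 2 * k := by ring
    rw [e] at h0
    have h1 := Zn_step (F := FS S (fun κ => κ ^ k) v) (F' := FS S (fun κ => κ ^ k) v')
      (F'' := fun x => q x * FS S (fun κ => κ ^ k) v x - FS S (fun κ => κ ^ k * κ) v x) (q := q)
      (FS_d hv S _) (FS_d' hv' S _) ((hqc.mul (hFSc _)).sub (hFSc _)) hqc hq0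
      (indep hv hv' hQ S _ hS (fun κ hκ => pow_ne_zero _ (hpos κ hκ).ne') hne) (ih (m + 2) h0)
    have h2 : (fun x => -(q x * FS S (fun κ => κ ^ k) v x - FS S (fun κ => κ ^ k * κ) v x) +
        q x * FS S (fun κ => κ ^ k) v x) = FS S (fun κ => κ ^ (k + 1)) v := by
      funext x
      simp only [pow_succ]
      ring
    rwa [h2] at h1

include hqc hv hv' in
/-- The number of zeros on long segments. -/
theorem seg_main {Q : ℝ} (hQ : ∀ x, |q x| ≤ Q) (hq0 : ∀ x, 0 < q x)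
    {S : Finset ℝ} (hS : S.Nonempty) (hpos : ∀ κ ∈ S, 0 < κ)
    (hb : ∀ κ ∈ S, ∃ B : ℝ, ∀ x, |v κ x| ≤ B ∧ |v' κ x| ≤ B)
    (hlow : ∀ κ ∈ S, ∃ c : ℝ, 0 < c ∧ ∀ x, c ≤ |v κ x| + |v' κ x|)
    {Λ : ℝ} (hΛ0 : 0 < Λ) (hΛ : ∀ κ ∈ S, ∀ x, |q x - κ| ≤ Λ) :
    ∃ k0 : ℕ, ∀ a b : ℝ, a ≤ b → ∀ Z : Finset ℝ, (∀ z ∈ Z, ∑ κ ∈ S, v κ z = 0 ∧ z ∈ Icc a b) →
      (Z.card : ℝ) ≤ k0 + (b - a) * (2 * Real.sqrt Λ) := by
  have hne : ∀ κ ∈ S, ∃ x, v κ x ≠ 0 := by
    intro κ hκ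
    by_contra hcon
    push Not at hcon
    obtain ⟨c, hc, h1⟩ := hlow κ hκ
    have h2 : v' κ 0 = 0 := by
      have h3 : v κ = fun _ => 0 := funext hcon
      have h4 := hv κ 0
      rw [h3] at h4
      exact h4.unique (hasDerivAt_const _ _)
    have := h1 0
    rw [hcon, h2, abs_zero, add_zero] at this
    linarith
  have hsΛ : 0 < Real.sqrt Λ := Real.sqrt_pos.2 hΛ0
  set l : ℝ := 1 / (2 * Real.sqrt Λ) with hl
  have hl0 : 0 < l := by positivity
  have hΛl : Λ * l ^ 2 ≤ 1 / 4 := by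
    rw [hl, div_pow, mul_pow, Real.sq_sqrt hΛ0.le]
    field_simp
    norm_num
  -- the top eigenvalue
  set κ0 := S.max' hS with hκ0
  have hκ0S : κ0 ∈ S := S.max'_mem hS
  have hκ0p := hpos κ0 hκ0S
  obtain ⟨c, hc, hclow⟩ := hlow κ0 hκ0S
  set K1 : ℝ := 2 + 2 * Λ * l * (1 + l) with hK1
  have hK10 : 0 < K1 := by positivity
  set ε : ℝ := c / (2 * K1) with hε
  have hε0 : 0 < ε := by positivity
  have hB' : ∀ κ, ∃ B : ℝ, κ ∈ S → ∀ x, |v κ x| ≤ B ∧ |v' κ x| ≤ B := by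
    intro κ
    by_cases hκ : κ ∈ S
    · obtain ⟨B, h1⟩ := hb κ hκ
      exact ⟨B, fun _ => h1⟩
    · exact ⟨0, fun h => absurd h hκ⟩
  choose B hB using hB'
  -- the error
  have hlim : Tendsto (fun k : ℕ => ∑ κ ∈ S.erase κ0, (κ / κ0) ^ k * B κ) atTop (𝓝 0) := by
    have h1 : Tendsto (fun k : ℕ => ∑ κ ∈ S.erase κ0, (κ / κ0) ^ k * B κ) atTop
        (𝓝 (∑ κ ∈ S.erase κ0, 0 * B κ)) := by
      refine tendsto_finsetSum _ fun κ hκ => Tendsto.mul_const _ ?_
      have h2 := Finset.mem_of_mem_erase hκ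
      have h3 : κ < κ0 := lt_of_le_of_ne (S.le_max' κ h2) (Finset.ne_of_mem_erase hκ)
      exact tendsto_pow_atTop_nhds_zero_of_lt_one (div_nonneg (hpos κ h2).le hκ0p.le)
        ((div_lt_one hκ0p).2 h3)
    simpa using h1
  obtain ⟨k, hk⟩ := (hlim.eventually_lt_const hε0).exists
  have herr : ∀ u : ℝ → ℝ → ℝ, (∀ κ ∈ S, ∀ x, |u κ x| ≤ B κ) →
      ∀ x, FS S (fun κ => κ ^ k) u x = 0 → |u κ0 x| < ε := by
    intro u hu x hx
    unfold FS at hx
    rw [← Finset.add_sum_erase S _ hκ0S] at hx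
    have h1 : u κ0 x = -∑ κ ∈ S.erase κ0, (κ / κ0) ^ k * u κ x := by
      have h2 : ∑ κ ∈ S.erase κ0, (κ / κ0) ^ k * u κ x =
          (∑ κ ∈ S.erase κ0, κ ^ k * u κ x) / κ0 ^ k := by
        rw [Finset.sum_div]
        refine Finset.sum_congr rfl fun κ _ => ?_
        rw [div_pow]
        ring
      rw [h2, eq_neg_iff_add_eq_zero]
      have h3 : κ0 ^ k ≠ 0 := pow_ne_zero _ hκ0p.ne'
      field_simp
      linarith
    rw [h1, abs_neg]
    refine lt_of_le_of_lt ((Finset.abs_sum_le_sum_abs _ _).trans ?_) hk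
    refine Finset.sum_le_sum fun κ hκ => ?_
    have h2 := Finset.mem_of_mem_erase hκ
    rw [abs_mul, abs_of_nonneg (pow_nonneg (div_nonneg (hpos κ h2).le hκ0p.le) k)]
    exact mul_le_mul_of_nonneg_left (hu κ h2 x)
      (pow_nonneg (div_nonneg (hpos κ h2).le hκ0p.le) k)
  -- the zeros are separated
  have hgap : ∀ s t, s < t → FS S (fun κ => κ ^ k) v s = 0 → FS S (fun κ => κ ^ k) v t = 0 →
      l ≤ t - s := by
    intro s t hst hs0 ht0
    by_contra hcon
    rw [not_le] at hcon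
    obtain ⟨r, hr, hr0⟩ := exists_hasDerivAt_eq_zero hst
      (continuous_iff_continuousAt.2 fun t =>
        (FS_d hv S (fun κ => κ ^ k) t).continuousAt).continuousOn
      (hs0.trans ht0.symm) (fun x _ => FS_d hv S (fun κ => κ ^ k) x)
    have e1 := herr v (fun κ h x => (hB κ h x).1) s hs0
    have e2 := herr v' (fun κ h x => (hB κ h x).2) r hr0
    have e3 := low_energy (hv κ0) (hv' κ0) (hΛ κ0 hκ0S) (s := s) (t := r - s) (l := l) (ε := ε)
      (by linarith [hr.1]) (by linarith [hr.2]) hΛl hε0.le e1.le (by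
        have : s + (r - s) = r := by ring
        rw [this]
        exact e2.le)
    have e4 := hclow s
    have e5 : K1 * ε = c / 2 := by
      rw [hε]
      field_simp
    rw [← hK1, e5] at e3
    linarith
  refine ⟨2 * k + 1, fun a b hab Z hZ => ?_⟩
  have hFS0 : ∀ x, FS S (fun κ => κ ^ 0) v x = ∑ κ ∈ S, v κ x := fun x => by
    unfold FS
    simp
  have hsq : (b - a) * (2 * Real.sqrt Λ) = (b - a) / l := by
    rw [hl]
    field_simp
  have hba : 0 ≤ (b - a) / l := div_nonneg (by linarith) hl0.le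
  rw [hsq]
  by_cases h2k : Z.card ≤ 2 * k
  · have : (Z.card : ℝ) ≤ (2 * k + 1 : ℕ) := by
      exact_mod_cast Nat.le_succ_of_le h2k
    linarith
  · rw [not_le] at h2k
    have h1 : Zn (FS S (fun κ => κ ^ 0) v) a b ((Z.card - 2 * k) + 2 * k) := by
      have : Z.card - 2 * k + 2 * k = Z.card := by omega
      rw [this]
      exact Zn_of fun z hz => by
        rw [hFS0]
        exact hZ z hz
    have h2 := Zn_iter hqc hv hv' hQ hq0 hS hpos hne k _ h1
    rcases Zn_gap hab hgap h2 with h3 | h3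
    · have h4 : ((Z.card - 2 * k : ℕ) : ℝ) = (Z.card : ℝ) - 2 * k := by
        rw [Nat.cast_sub h2k.le]
        push_cast
        ring
      rw [h4] at h3
      have h5 : (Z.card : ℝ) - 2 * k ≤ (b - a) / l + 1 := by
        rw [← le_div_iff₀ hl0] at h3
        refine h3.trans (le_of_eq ?_)
        rw [add_div, div_self hl0.ne']
      push_cast
      linarith
    · omega

end

end Pool.Agent.NH44.TT
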